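import Pool.Agent.H29.TW.Alg

/-! The slit tip and the two walls: the homogeneous point. -/

namespace Pool.Agent.H29.TW

open Pool.Agent.H988R2.Perc hiding X
open Pool.Agent.H492C
open Pool.Agent.H981R2.TP
open Finset Polynomial

/-- the exact value (the tip is at the distance `a` from the left wall and `b + 1` from the right
wall) -/
noncomputable def hitFormula (a b : ℕ) : ℝ :=
  3 * chi a * chi (b+1) * chi (a+b) / (chi (a-1) * chi b * chi (a+b+1))

theorem q4 : q^4 = q := T20.q4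

theorem fac_zero_ones (k : ℕ) : fac 0 (List.replicate k 1) = q^k := by
  unfold fac
  rw [List.map_replicate, List.prod_replicate]
  congr 1
  linear_combination q4

/-- two parameters `0` -/
theorem Z_zero_zero (k : ℕ) (hk : Even k) :
    Z (0 :: (List.replicate k 1 ++ [0])) = q^k * Z (List.replicate k 1) := by
  have h1 : (0 :: (List.replicate k (1:ℂ) ++ [0])).Perm (0 :: 0 :: List.replicate k 1) := by
    refine List.Perm.cons _ ?_
    exact List.perm_append_comm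
  rw [Z_perm (by simpa using (hk.add_one.add_one)) h1]
  have h2 := Z_rec [] (List.replicate k 1) 0 (by simpa using hk)
  rw [mul_zero, List.nil_append, List.nil_append] at h2
  rw [h2, fac_zero_ones]

theorem Z_zero_first (k : ℕ) (hk : Odd k) :
    Z (0 :: List.replicate k 1) = Z (List.replicate k 1 ++ [0]) :=
  Z_perm (by simpa using hk.add_one) (List.perm_append_comm (l₁ := [0]))

theorem mass_wW (m k : ℕ) : mass (wW (2*m+2 + (2*k+1) + 2)) =
    q^(2*(m+k+2)) * (q^((m+k+2)*(m+k+1)) * (chi (2*(m+k+2)) : ℂ)) := by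
  have e : 2*m+2 + (2*k+1) + 2 - 1 = 2*(m+k+2) := by omega
  have h : mass (wW (2*m+2 + (2*k+1) + 2)) = Z (0 :: (List.replicate (2*(m+k+2)) 1 ++ [0])) := by
    unfold wW Z
    rw [e]
  rw [h, Z_zero_zero _ (even_two_mul _), Z_ones]
  rfl

theorem mass_wL (m : ℕ) : mass (wL (2*m+2)) = q^((m+1)*m) * (chi (2*m+1) : ℂ) := by
  have h : mass (wL (2*m+2)) = Z (0 :: List.replicate (2*m+1) 1) := rfl
  rw [h, Z_zero_first _ ⟨m, rfl⟩, Z_ones_zero]

theorem mass_psi1 (k : ℕ) : mass (psi1 (2*k+1)) = q^((k+1)*k) * (chi (2*k+1) : ℂ) := Z_ones_zero k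

theorem hom (m k : ℕ) :
    pairG (2*m+2+1) (2*m+2+2+(2*k+1)) (wW (2*m+2 + (2*k+1) + 2))
      (comb2 ((2*m+2)/2+1) (wL (2*m+2)) (psi1 (2*k+1))) =
    (hitFormula (2*m+2) (2*k+1) : ℂ) *
      (mass (wW (2*m+2 + (2*k+1) + 2)) * mass (wL (2*m+2)) * mass (psi1 (2*k+1))) := by
  have h := at_zero (2*m+1) (2*k+1) ⟨m, rfl⟩ ⟨k, rfl⟩
  have e1 : wW (2*m+2 + (2*k+1) + 2) = Psi (0 :: (List.replicate (2*m+1) 1 ++ 1 :: 1 ::
      (List.replicate (2*k+1) 1 ++ [0]))) := by
    unfold wW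
    congr 2
    have h1 : (1 : ℂ) :: 1 :: (List.replicate (2*k+1) 1 ++ [0]) =
        List.replicate (2*k+1+2) 1 ++ [0] := by
      rw [List.replicate_succ, List.replicate_succ]; rfl
    rw [h1, ← List.append_assoc, List.replicate_append_replicate]
    congr 2
    omega
  have e2 : up1 (List.replicate (2*k+1) 1) = psi1 (2*k+1) := by
    unfold up1 psi1
    rw [List.map_replicate, inv_one]
  have e3 : wL (2*m+2) = Psi (0 :: List.replicate (2*m+1) 1) := rfl
  rw [e1, e3, ← e2]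
  have i1 : 2*m+1+1+1 = 2*m+2+1 := rfl
  have i2 : 2*m+1+1+2+(2*k+1) = 2*m+2+2+(2*k+1) := rfl
  have i3 : (2*m+1+1)/2+1 = (2*m+2)/2+1 := rfl
  rw [i1, i2, i3] at h
  rw [h, ← e1, ← e3, e2, mass_wW, mass_wL, mass_psi1]
  have f1 : Z (0 :: (List.replicate (2*m+1) 1 ++ [1, 0])) =
      q^(2*(m+1)) * (q^((m+1)*m) * (chi (2*(m+1)) : ℂ)) := by
    have : List.replicate (2*m+1) (1:ℂ) ++ [1, 0] = List.replicate (2*(m+1)) 1 ++ [0] := by
      have h5 := List.replicate_succ' (n := 2*m+1) (a := (1:ℂ))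
      rw [show 2*(m+1) = 2*m+1+1 by ring, h5, List.append_assoc]; rfl
    rw [this, Z_zero_zero _ (even_two_mul _), Z_ones]
    rfl
  have f2 : Z (List.replicate (2*k+1) 1 ++ [1]) = q^((k+1)*k) * (chi (2*(k+1)) : ℂ) := by
    have : List.replicate (2*k+1) (1:ℂ) ++ [1] = List.replicate (2*(k+1)) 1 := by
      rw [← List.replicate_succ']
      rfl
    rw [this, Z_ones]
    rfl
  have f3 : Z (0 :: (List.replicate (2*m+1) 1 ++ 1 :: List.replicate (2*k+1) 1)) =
      q^((m+k+2)*(m+k+1)) * (chi (2*(m+k+1)+1) : ℂ) := by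
    have : List.replicate (2*m+1) (1:ℂ) ++ 1 :: List.replicate (2*k+1) 1 =
        List.replicate (2*(m+k+1)+1) 1 := by
      have h2 : (1:ℂ) :: List.replicate (2*k+1) 1 = List.replicate (2*k+2) 1 := rfl
      rw [h2, List.replicate_append_replicate]
      congr 1
      ring
    rw [this, Z_zero_first _ ⟨_, rfl⟩, Z_ones_zero]
  rw [f1, f2, f3]
  unfold hitFormula
  have c1 : (2*m+2 : ℕ) = 2*(m+1) := by ring
  have c2 : (2*k+1+1 : ℕ) = 2*(k+1) := by ring
  have c3 : (2*m+2+(2*k+1) : ℕ) = 2*(m+k+1)+1 := by ring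
  have c4 : 2*(m+k+1)+1+1 = 2*(m+k+2) := by ring
  have c5 : 2*m+2-1 = 2*m+1 := by omega
  rw [c3, c4, c5, c2, c1]
  have h1 : (chi (2*m+1) : ℂ) ≠ 0 := by exact_mod_cast (chi_pos _).ne'
  have h2 : (chi (2*k+1) : ℂ) ≠ 0 := by exact_mod_cast (chi_pos _).ne'
  have h3 : (chi (2*(m+k+2)) : ℂ) ≠ 0 := by exact_mod_cast (chi_pos _).ne'
  push_cast
  field_simp
  ring

end Pool.Agent.H29.TW
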