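import Pool.Agent.H29.TW.LawF
import Pool.Agent.H29.TW.Hom
import Pool.Graph.R_seed8.H981R2.TP.Main

/-!
The slit tip and the two walls: the probability that the tip is joined to the right wall when all
the edges between the columns `0` and `1` are open.
-/

namespace Pool.Agent.H29.TW

open Pool.Agent.H988R2.Perc hiding X
open Pool.Agent.H492C
open Pool.Agent.H981R2.TP
open MeasureTheory Finset Filter Topology

/-- all the edges between the columns `0` and `1` are opened -/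
def opn (ω : Conf) : Conf := fun e =>
  if (e.1 = e.2.1 ∧ e.2.2 = false) ∨ (e.1 = e.2.1 + 1 ∧ e.2.2 = true) then true else ω e

theorem opn_edgeOf (ω : Conf) (i r : ℤ) :
    opn ω (edgeOf i r) = if i = 1 then true else ω (edgeOf i r) := by
  unfold opn edgeOf
  by_cases h : (i + r) % 2 = 1
  · rw [if_pos h]
    by_cases hi : i = 1
    · rw [if_pos hi, if_pos]
      right
      exact ⟨by dsimp only; omega, rfl⟩
    · rw [if_neg hi, if_neg]
      rintro (⟨_, h2⟩ | ⟨h1, _⟩)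
      · simp at h2
      · dsimp only at h1
        omega
  · rw [if_neg h]
    by_cases hi : i = 1
    · rw [if_pos hi, if_pos]
      left
      exact ⟨by dsimp only; omega, rfl⟩
    · rw [if_neg hi, if_neg]
      rintro (⟨h1, _⟩ | ⟨_, h2⟩)
      · dsimp only at h1
        omega
      · simp at h2

theorem oPast_opn (ω : Conf) (M : ℕ) : oPast (opn ω) M = force (oPast ω M) := by
  funext k i
  unfold oPast force
  rw [opn_edgeOf]
  by_cases h : i = 1
  · rw [if_pos (by exact_mod_cast h), if_pos h]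
  · rw [if_neg (by exact_mod_cast h), if_neg h]

theorem oFut_opn (ω : Conf) (M : ℕ) : oFut (opn ω) M = force (oFut ω M) := by
  funext k i
  unfold oFut force
  rw [opn_edgeOf]
  by_cases h : i = 1
  · rw [if_pos (by exact_mod_cast h), if_pos h]
  · rw [if_neg (by exact_mod_cast h), if_neg h]

theorem oFutR2_opn (a : ℕ) (ω : Conf) (M : ℕ) : oFutR2 a (opn ω) M = oFutR2 a ω M := by
  funext k i
  unfold oFutR2
  rw [opn_edgeOf, if_neg (by omega)]

theorem X_pastF (L M : ℕ) (ω : Conf) :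
    Pool.Agent.H988R2.Perc.X L (actBit (force (oPast ω M))) M =
      Pool.Agent.H988R2.Perc.X L (actBit (force (T23.bits (T23.tP L M ω)))) M := by
  apply T23.X_congr
  intro k i hk h1 h2
  have : oPast ω M k i = T23.bits (T23.tP L M ω) k i := by
    have hm : (k, i) ∈ T23.SS L M := by rw [T23.mem_SS]; exact ⟨hk, h1, h2⟩
    have h3 : (k, i) ∈ T23.tP L M ω ↔ ω (T23.eP M (k, i)) = true := by
      unfold T23.tP
      rw [Finset.mem_filter]
      exact ⟨fun h => h.2, fun h => ⟨hm, h⟩⟩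
    have h4 : T23.bits (T23.tP L M ω) k i = decide ((k, i) ∈ T23.tP L M ω) := rfl
    rw [h4]
    have h5 : oPast ω M k i = ω (T23.eP M (k, i)) := rfl
    rw [h5]
    by_cases h6 : ω (T23.eP M (k, i)) = true
    · rw [h6, decide_eq_true (h3.2 h6)]
    · rw [decide_eq_false (fun h => h6 (h3.1 h))]
      exact Bool.eq_false_iff.2 h6
  simp only [actBit, force, this]

theorem X_futF (L M : ℕ) (ω : Conf) :
    Pool.Agent.H988R2.Perc.X L (actBit (force (oFut ω M))) M =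
      Pool.Agent.H988R2.Perc.X L (actBit (force (T23.bits (T23.tF L M ω)))) M := by
  apply T23.X_congr
  intro k i hk h1 h2
  have : oFut ω M k i = T23.bits (T23.tF L M ω) k i := by
    have hm : (k, i) ∈ T23.SS L M := by rw [T23.mem_SS]; exact ⟨hk, h1, h2⟩
    have h3 : (k, i) ∈ T23.tF L M ω ↔ ω (T23.eF M (k, i)) = true := by
      unfold T23.tF
      rw [Finset.mem_filter]
      exact ⟨fun h => h.2, fun h => ⟨hm, h⟩⟩
    have h4 : T23.bits (T23.tF L M ω) k i = decide ((k, i) ∈ T23.tF L M ω) := rfl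
    rw [h4]
    have h5 : oFut ω M k i = ω (T23.eF M (k, i)) := rfl
    rw [h5]
    by_cases h6 : ω (T23.eF M (k, i)) = true
    · rw [h6, decide_eq_true (h3.2 h6)]
    · rw [decide_eq_false (fun h => h6 (h3.1 h))]
      exact Bool.eq_false_iff.2 h6
  simp only [actBit, force, this]

/-- the window event with open edges between the columns `0` and `1` -/
def WinF (a b M : ℕ) : Set Conf := {ω | opn ω ∈ WinT a b M}

theorem mem_WinF (a b M : ℕ) (ω : Conf) : ω ∈ WinF a b M ↔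
    conn4 a b (Pool.Agent.H988R2.Perc.X (a+b+2) (actBit (force (T23.bits (T23.tP (a+b+2) M ω)))) M)
      (Pool.Agent.H988R2.Perc.X a (actBit (force (T23.bits (T23.tF a M ω)))) M)
      (Pool.Agent.H988R2.Perc.X b (actBit (T23.bits (tR2 a b M ω))) M) := by
  unfold WinF WinT
  rw [Set.mem_setOf_eq, Set.mem_setOf_eq, oPast_opn, oFut_opn, oFutR2_opn, X_pastF, X_futF,
    C10.X_futR]

open Classical in
/-- the good cells -/
noncomputable def goodF (a b M : ℕ) : Finset C10.Tr :=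
  ((T23.SS (a+b+2) M).powerset ×ˢ ((T23.SS a M).powerset ×ˢ (T23.SS b M).powerset)).filter
    (fun p => conn4 a b (Pool.Agent.H988R2.Perc.X (a+b+2) (actBit (force (T23.bits p.1))) M)
      (Pool.Agent.H988R2.Perc.X a (actBit (force (T23.bits p.2.1))) M)
      (Pool.Agent.H988R2.Perc.X b (actBit (T23.bits p.2.2)) M))

theorem mem_goodF {a b M : ℕ} {p : C10.Tr} :
    p ∈ goodF a b M ↔ (p.1 ⊆ T23.SS (a+b+2) M ∧ p.2.1 ⊆ T23.SS a M ∧ p.2.2 ⊆ T23.SS b M) ∧
      conn4 a b (Pool.Agent.H988R2.Perc.X (a+b+2) (actBit (force (T23.bits p.1))) M)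
        (Pool.Agent.H988R2.Perc.X a (actBit (force (T23.bits p.2.1))) M)
        (Pool.Agent.H988R2.Perc.X b (actBit (T23.bits p.2.2)) M) := by
  classical
  unfold goodF
  rw [Finset.mem_filter, Finset.mem_product, Finset.mem_product, Finset.mem_powerset,
    Finset.mem_powerset, Finset.mem_powerset]

theorem winF_eq (a b M : ℕ) :
    WinF a b M = ⋃ p ∈ goodF a b M, cell4 a b M p.1 p.2.1 p.2.2 := by
  ext ω
  rw [mem_WinF]
  simp only [Set.mem_iUnion, exists_prop]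
  constructor
  · intro h
    refine ⟨(T23.tP (a+b+2) M ω, T23.tF a M ω, tR2 a b M ω), ?_, rfl, rfl, rfl⟩
    rw [mem_goodF]
    exact ⟨⟨filter_subset _ _, filter_subset _ _, filter_subset _ _⟩, h⟩
  · rintro ⟨⟨p1, p2, p3⟩, hp, h1, h2, h3⟩
    simp only at h1 h2 h3
    subst h1 h2 h3
    rw [mem_goodF] at hp
    exact hp.2

open Classical in
theorem sum_goodF (a b M : ℕ) :
    (∑ t0 ∈ (T23.SS (a+b+2) M).powerset, ∑ t1 ∈ (T23.SS a M).powerset,
        ∑ t2 ∈ (T23.SS b M).powerset,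
        (if conn4 a b (Pool.Agent.H988R2.Perc.X (a+b+2) (actBit (force (T23.bits t0))) M)
          (Pool.Agent.H988R2.Perc.X a (actBit (force (T23.bits t1))) M)
          (Pool.Agent.H988R2.Perc.X b (actBit (T23.bits t2)) M) then (1 : ℂ) else 0)) =
      ((goodF a b M).card : ℂ) := by
  unfold goodF
  rw [Finset.natCast_card_filter, Finset.sum_product]
  refine Finset.sum_congr rfl fun t0 _ => ?_
  rw [Finset.sum_product]

theorem perc_WinF (a b M : ℕ) : ((perc.real (WinF a b M) : ℝ) : ℂ) =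
    pair4 a b (lawF (a+b+2) M) (lawF a M) (law b M) := by
  have hc : ∀ p ∈ goodF a b M, MeasurableSet (cell4 a b M p.1 p.2.1 p.2.2) ∧
      perc (cell4 a b M p.1 p.2.1 p.2.2) = (1/2) ^ (2*M*(a+b+2) + 2*M*a + 2*M*b) := by
    intro p hp
    obtain ⟨⟨h1, h2, h3⟩, _⟩ := mem_goodF.1 hp
    exact t_C8 a b M p.1 p.2.1 p.2.2 h1 h2 h3
  rw [lawF_eq, lawF_eq, T23.law_eq, t_C9, winF_eq, measureReal_biUnion_finset]
  · have h1 : ∀ p ∈ goodF a b M, perc.real (cell4 a b M p.1 p.2.1 p.2.2) =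
        (1/2 : ℝ)^(2*M*(a+b+2) + 2*M*a + 2*M*b) := by
      intro p hp
      rw [measureReal_def, (hc p hp).2]
      simp
    rw [Finset.sum_congr rfl h1, Finset.sum_const, nsmul_eq_mul]
    rw [sum_goodF]
    push_cast
    rw [← pow_add, ← pow_add, mul_comm]
  · intro p _ p' _ hne
    rw [Function.onFun, Set.disjoint_left]
    rintro ω ⟨h1, h2, h3⟩ ⟨h4, h5, h6⟩
    exact hne (Prod.ext (h1.symm.trans h4) (Prod.ext (h2.symm.trans h5) (h3.symm.trans h6)))
  · intro p hp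
    exact (hc p hp).1

/-- the event with open edges between the columns `0` and `1` -/
def ArmF (a b : ℕ) : Set Conf := {ω | opn ω ∈ TipArm a b}

theorem mass_wW_ne (m k : ℕ) : mass (wW (2*m+2 + (2*k+1) + 2)) ≠ 0 := by
  rw [mass_wW]
  refine mul_ne_zero (pow_ne_zero _ q_ne_zero) (mul_ne_zero (pow_ne_zero _ q_ne_zero) ?_)
  exact_mod_cast (chi_pos _).ne'

theorem mass_wL_ne (m : ℕ) : mass (wL (2*m+2)) ≠ 0 := by
  rw [mass_wL]
  refine mul_ne_zero (pow_ne_zero _ q_ne_zero) ?_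
  exact_mod_cast (chi_pos _).ne'

theorem mass_psi1_ne (k : ℕ) : mass (psi1 (2*k+1)) ≠ 0 := by
  rw [mass_psi1]
  refine mul_ne_zero (pow_ne_zero _ q_ne_zero) ?_
  exact_mod_cast (chi_pos _).ne'

theorem supp_wL (m : ℕ) : ∀ R ∈ (wL (2*m+2)).support, ∀ x y, R.rel x y →
    x = y ∨ (x < 2*m+2 ∧ y < 2*m+2) := by
  intro R hR x y h
  have := Psi_supp (0 :: List.replicate (2*m+1) (1 : ℂ)) ⟨m+1, by simp; ring⟩ R hR x y h
  simp only [List.length_cons, List.length_replicate] at this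
  omega

theorem supp_wW (n : ℕ) : ∀ R ∈ (wW (2*n+3)).support, ∀ x y, R.rel x y →
    x = y ∨ (x < 2*n+3+1 ∧ y < 2*n+3+1) := by
  intro R hR x y h
  have := Psi_supp (0 :: (List.replicate (2*n+2) (1 : ℂ) ++ [0])) ⟨n+2, by simp; ring⟩ R hR x y h
  simp only [List.length_cons, List.length_append, List.length_replicate, List.length_nil] at this
  omega

theorem law_wL (m : ℕ) : Tendsto (fun M => T24.nrm (lawF (2*m+2) M +
    (-1 : ℂ) • ((mass (wL (2*m+2)))⁻¹ • wL (2*m+2)))) atTop (𝓝 0) :=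
  lawF_tendsto _ _ (stat_wL m) (fun R hR x y h => by
    rcases supp_wL m R hR x y h with h | h
    · exact Or.inl h
    · right; omega) (mass_wL_ne m)

theorem law_wW (m k : ℕ) : Tendsto (fun M => T24.nrm (lawF (2*m+2+(2*k+1)+2) M +
    (-1 : ℂ) • ((mass (wW (2*m+2+(2*k+1)+2)))⁻¹ • wW (2*m+2+(2*k+1)+2)))) atTop (𝓝 0) := by
  have e : 2*m+2+(2*k+1)+2 = 2*(m+k+1)+3 := by ring
  have h := mass_wW_ne m k
  rw [e] at h ⊢
  exact lawF_tendsto _ _ (stat_wW _) (supp_wW _) h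

/-- the exact value of the probability -/
theorem armF_exact (m k : ℕ) : perc.real (ArmF (2*m+2) (2*k+1)) = hitFormula (2*m+2) (2*k+1) := by
  have ha : Even (2*m+2) := ⟨m+1, by ring⟩
  have hb : Odd (2*k+1) := ⟨k, rfl⟩
  have hmono : Monotone (WinF (2*m+2) (2*k+1)) := fun M M' hM ω h =>
    C14.winT_mono s_C4 s_C5 ha hb hM h
  have hU : ⋃ M, WinF (2*m+2) (2*k+1) M = ArmF (2*m+2) (2*k+1) := by
    ext ω
    rw [Set.mem_iUnion]
    have h := C14.iUnion_winT s_C4 s_C5 t_C6 t_C7 ha hb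
    show (∃ M, opn ω ∈ WinT (2*m+2) (2*k+1) M) ↔ opn ω ∈ TipArm (2*m+2) (2*k+1)
    rw [← h, Set.mem_iUnion]
  have e1 : Tendsto (fun M => perc.real (WinF (2*m+2) (2*k+1) M)) atTop
      (𝓝 (perc.real (ArmF (2*m+2) (2*k+1)))) := by
    have h1 : Tendsto (fun M => perc (WinF (2*m+2) (2*k+1) M)) atTop
        (𝓝 (perc (⋃ M, WinF (2*m+2) (2*k+1) M))) := tendsto_measure_iUnion_atTop hmono
    rw [hU] at h1
    exact (ENNReal.tendsto_toReal (measure_ne_top perc _)).comp h1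
  have e2 : Tendsto (fun M => ((perc.real (WinF (2*m+2) (2*k+1) M) : ℝ) : ℂ)) atTop
      (𝓝 ((perc.real (ArmF (2*m+2) (2*k+1)) : ℝ) : ℂ)) :=
    (Complex.continuous_ofReal.tendsto _).comp e1
  have l2 := Pool.Agent.H980R3.Slit.psi1_law Pool.Agent.H980R3.Slit.t_C12 (2*k+1) hb
  have e3 := s_C13 (2*m+2) (2*k+1) (lawF (2*m+2+(2*k+1)+2)) (lawF (2*m+2)) (law (2*k+1))
    ((mass (wW (2*m+2+(2*k+1)+2)))⁻¹ • wW (2*m+2+(2*k+1)+2))
    ((mass (wL (2*m+2)))⁻¹ • wL (2*m+2)) ((mass (psi1 (2*k+1)))⁻¹ • psi1 (2*k+1))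
    (law_wW m k) (law_wL m) l2
  have e4 : Tendsto (fun M => ((perc.real (WinF (2*m+2) (2*k+1) M) : ℝ) : ℂ)) atTop
      (𝓝 (pair4 (2*m+2) (2*k+1)
        ((mass (wW (2*m+2+(2*k+1)+2)))⁻¹ • wW (2*m+2+(2*k+1)+2))
        ((mass (wL (2*m+2)))⁻¹ • wL (2*m+2)) ((mass (psi1 (2*k+1)))⁻¹ • psi1 (2*k+1)))) := by
    refine e3.congr fun M => ?_
    rw [perc_WinF]
  have e5 := tendsto_nhds_unique e2 e4
  obtain ⟨_, _, _, s1, s2, s3, _⟩ := t_C11
  have h15 := C15_pair (2*m+2) (2*k+1) ((2*m+2)/2+1) (by omega) (wW (2*m+2+(2*k+1)+2))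
    (wL (2*m+2)) (psi1 (2*k+1)) (supp_wL m)
  rw [hom] at h15
  rw [s1, s2, s3, ← h15] at e5
  have n0 := mass_wW_ne m k
  have n1 := mass_wL_ne m
  have n2 := mass_psi1_ne k
  have e6 : ((perc.real (ArmF (2*m+2) (2*k+1)) : ℝ) : ℂ) =
      (hitFormula (2*m+2) (2*k+1) : ℂ) := by
    rw [e5]
    field_simp
  exact_mod_cast e6

end Pool.Agent.H29.TW
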