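import Pool.Agent.H29.TW.Strip
import Pool.Graph.R_seed8.R966.Tip.Scale

/-!
Measurability, inclusion-exclusion and the limits.
-/

namespace Pool.Agent.H29.TW

open Pool.Agent.H988R2.Perc hiding X
open Pool.Agent.H981R2.TP
open Pool.Agent.H981R2.TP.PL
open Pool.Agent.R966.Tip
open MeasureTheory Finset Filter Topology

/-! ## measurability -/

/-- reachable in `n` steps -/
def reach (R : Conf → ℤ × ℤ → ℤ × ℤ → Prop) (x : ℤ × ℤ) : ℕ → ℤ × ℤ → Set Conf
  | 0, y => {_ω | x = y}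
  | n+1, y => ⋃ z : ℤ × ℤ, reach R x n z ∩ {ω | R ω z y}

theorem reach_meas {R : Conf → ℤ × ℤ → ℤ × ℤ → Prop} (hR : ∀ x y, MeasurableSet {ω | R ω x y})
    (x : ℤ × ℤ) (n : ℕ) : ∀ y, MeasurableSet (reach R x n y) := by
  induction n with
  | zero => intro y; exact MeasurableSet.const _
  | succ n ih => intro y; exact MeasurableSet.iUnion fun z => (ih z).inter (hR z y)

theorem rtg_reach (R : Conf → ℤ × ℤ → ℤ × ℤ → Prop) (x y : ℤ × ℤ) :
    {ω | Relation.ReflTransGen (R ω) x y} = ⋃ n, reach R x n y := by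
  ext ω
  rw [Set.mem_iUnion]
  constructor
  · intro h
    have h' : Relation.ReflTransGen (R ω) x y := h
    clear h
    induction h' with
    | refl => exact ⟨0, rfl⟩
    | @tail s t _ h2 ih =>
      obtain ⟨n, hn⟩ := ih
      exact ⟨n+1, Set.mem_iUnion.2 ⟨s, hn, h2⟩⟩
  · rintro ⟨n, hn⟩
    show Relation.ReflTransGen (R ω) x y
    induction n generalizing y with
    | zero =>
      have : x = y := hn
      rw [this]
    | succ n ih =>
      obtain ⟨z, hz, h2⟩ := Set.mem_iUnion.1 hn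
      exact (ih z hz).tail h2

theorem rtg_meas {R : Conf → ℤ × ℤ → ℤ × ℤ → Prop} (hR : ∀ x y, MeasurableSet {ω | R ω x y})
    (x y : ℤ × ℤ) : MeasurableSet {ω | Relation.ReflTransGen (R ω) x y} := by
  rw [rtg_reach]
  exact MeasurableSet.iUnion fun n => reach_meas hR x n y

theorem and_meas (P : Prop) (e : Edge) : MeasurableSet {ω : Conf | P ∧ ω e = true} := by
  have e1 : {ω : Conf | P ∧ ω e = true} = {_ω : Conf | P} ∩ (fun ω : Conf => ω e) ⁻¹' {true} := by
    ext ω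
    simp
  rw [e1]
  exact (MeasurableSet.const P).inter (measurable_pi_apply e (measurableSet_singleton true))

theorem openAdj_meas (x y : ℤ × ℤ) : MeasurableSet {ω : Conf | OpenAdj ω x y} :=
  (and_meas _ _).union ((and_meas _ _).union ((and_meas _ _).union (and_meas _ _)))

theorem slitAdj_meas (x y : ℤ × ℤ) : MeasurableSet {ω : Conf | SlitAdj ω x y} :=
  (openAdj_meas x y).inter (MeasurableSet.const _)

theorem sAdj_meas (p r : ℕ) (x y : ℤ × ℤ) : MeasurableSet {ω : Conf | SAdj p r ω x y} :=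
  (slitAdj_meas x y).inter (MeasurableSet.const _)

theorem ex_meas {R : Conf → ℤ × ℤ → ℤ × ℤ → Prop} (hR : ∀ x y, MeasurableSet {ω | R ω x y})
    (P : ℤ × ℤ → Prop) (x : ℤ × ℤ) :
    MeasurableSet {ω | ∃ y : ℤ × ℤ, P y ∧ Relation.ReflTransGen (R ω) x y} := by
  have e : {ω | ∃ y : ℤ × ℤ, P y ∧ Relation.ReflTransGen (R ω) x y} =
      ⋃ y : ℤ × ℤ, {ω | P y} ∩ {ω | Relation.ReflTransGen (R ω) x y} := by
    ext ω
    simp
  rw [e]
  exact MeasurableSet.iUnion fun y => (MeasurableSet.const _).inter (rtg_meas hR x y)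

theorem strip_meas (p r : ℕ) : MeasurableSet (StripArm p r) := ex_meas (sAdj_meas p r) _ _

theorem plane_meas (r : ℕ) : MeasurableSet (PlaneArm r) := ex_meas slitAdj_meas _ _

/-! ## inclusion-exclusion -/

theorem both_real (p r : ℕ) : perc.real (ArmL p r ∩ StripArm p r) =
    perc.real (ArmL p r) + perc.real (StripArm p r) - perc.real (Hit p r) := by
  have h := measureReal_union_add_inter (μ := perc) (s := ArmL p r) (strip_meas p r)
  rw [hit_union]
  linarith

theorem bothP_real (p r : ℕ) : perc.real (LeftP p ∩ PlaneArm r) =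
    perc.real (LeftP p) + perc.real (PlaneArm r) - perc.real (Hit p r) := by
  have h := measureReal_union_add_inter (μ := perc) (s := LeftP p) (plane_meas r)
  rw [hit_plane] at h
  linarith

/-! ## exact joint law in the slit plane -/

theorem planeVal_fr (n : ℕ) : planeVal n = fr n := rfl

theorem joint_exact {p r : ℕ} (hp : Even p) (hp0 : 0 < p) (hr : Even r) (hr0 : 0 < r) :
    perc.real (LeftP p ∩ PlaneArm r) = fr p + fr r - hitVal p r := by
  rw [bothP_real, leftP_real, plane_exact hp hp0, plane_exact hr hr0, hit_exact hp hp0 hr hr0]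
  rfl

/-! ## asymptotics -/

theorem hit_asymp (p r : ℕ → ℕ) (tp : Tendsto p atTop atTop) (tr : Tendsto r atTop atTop) :
    Tendsto (fun n => perc.real (Hit (p n) (r n)) *
      ((p n : ℝ) * r n / (p n + r n))^((1:ℝ)/6)) atTop
      (𝓝 (Real.sqrt Real.pi / Real.Gamma (1/3))) := by
  have hl := hit_ratio (p' := fun n => 2*((p n + 1)/2)) (r' := fun n => 2*((r n+1)/2)) tp tr
    (fun n => by
      have e : |(((2*((p n + 1)/2) : ℕ) : ℤ) : ℤ) - (p n : ℤ)| ≤ 1 := by
        rw [abs_le]; omega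
      exact_mod_cast e)
    (fun n => by
      have e : |(((2*((r n + 1)/2) : ℕ) : ℤ) : ℤ) - (r n : ℤ)| ≤ 1 := by
        rw [abs_le]; omega
      exact_mod_cast e)
  have hu := hit_ratio (p' := fun n => 2*(p n /2)) (r' := fun n => 2*(r n/2)) tp tr
    (fun n => by
      have e : |(((2*(p n/2) : ℕ) : ℤ) : ℤ) - (p n : ℤ)| ≤ 1 := by
        rw [abs_le]; omega
      exact_mod_cast e)
    (fun n => by
      have e : |(((2*(r n/2) : ℕ) : ℤ) : ℤ) - (r n : ℤ)| ≤ 1 := by
        rw [abs_le]; omega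
      exact_mod_cast e)
  refine tendsto_of_tendsto_of_tendsto_of_le_of_le' hl hu ?_ ?_
  · filter_upwards [tp.eventually_ge_atTop 2, tr.eventually_ge_atTop 2] with n n1 n2
    refine mul_le_mul_of_nonneg_right ?_ (by positivity)
    rw [← hit_exact (p := 2*((p n + 1)/2)) (r := 2*((r n+1)/2))
      (even_two_mul _) (by omega) (even_two_mul _) (by omega)]
    exact measureReal_mono (hit_anti (by omega) (by omega))
  · filter_upwards [tp.eventually_ge_atTop 2, tr.eventually_ge_atTop 2] with n n1 n2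
    refine mul_le_mul_of_nonneg_right ?_ (by positivity)
    rw [← hit_exact (p := 2*(p n/2)) (r := 2*(r n/2))
      (even_two_mul _) (by omega) (even_two_mul _) (by omega)]
    exact measureReal_mono (hit_anti (by omega) (by omega))

theorem cst_pos : 0 < Real.sqrt Real.pi / Real.Gamma (1/3) :=
  div_pos (Real.sqrt_pos.2 Real.pi_pos) (Real.Gamma_pos_of_pos (by norm_num))

theorem sixth_sq {x : ℝ} (hx : 0 ≤ x) : (x^2)^((1:ℝ)/6) = x^((1:ℝ)/3) := by
  rw [← Real.rpow_natCast, ← Real.rpow_mul hx]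
  norm_num

/-- right wall given the hit -/
theorem right_cond (p r : ℕ → ℕ) (tp : Tendsto p atTop atTop) (tr : Tendsto r atTop atTop) {x : ℝ}
    (hx : Tendsto (fun n => (p n : ℝ) / (p n + r n)) atTop (𝓝 x)) :
    Tendsto (fun n => perc.real (StripArm (p n) (r n)) / perc.real (Hit (p n) (r n))) atTop
      (𝓝 (x^((1:ℝ)/3))) := by
  have h1 := strip_asymp p r tp tr
  have h2 := hit_asymp p r tp tr
  have h3 := h1.div h2 cst_pos.ne'
  rw [div_self cst_pos.ne'] at h3
  have h4 := h3.mul (hx.rpow_const (p := (1:ℝ)/3) (Or.inr (by norm_num)))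
  rw [one_mul] at h4
  refine h4.congr' ?_
  filter_upwards [tp.eventually_gt_atTop 0, tr.eventually_gt_atTop 0] with n n1 n2
  have q1 : (0:ℝ) < p n := by exact_mod_cast n1
  have q2 : (0:ℝ) < r n := by exact_mod_cast n2
  rw [← sixth_sq (by positivity)]
  simp only [Pi.div_apply]
  have e1 : ((p n : ℝ) * r n / (p n + r n))^((1:ℝ)/6) =
      ((r n : ℝ) * (p n + r n) / p n)^((1:ℝ)/6) * (((p n : ℝ) / (p n + r n))^2)^((1:ℝ)/6) := by
    rw [← Real.mul_rpow (by positivity) (by positivity)]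
    congr 1
    field_simp
  rw [e1]
  have z1 : 0 < ((r n : ℝ) * (p n + r n) / p n)^((1:ℝ)/6) := Real.rpow_pos_of_pos (by positivity) _
  have z2 : 0 < (((p n : ℝ) / (p n + r n))^2)^((1:ℝ)/6) := Real.rpow_pos_of_pos (by positivity) _
  generalize ((r n : ℝ) * (p n + r n) / p n)^((1:ℝ)/6) = Z1 at *
  generalize (((p n : ℝ) / (p n + r n))^2)^((1:ℝ)/6) = Z2 at *
  by_cases hH : perc.real (Hit (p n) (r n)) = 0
  · rw [hH]; simp
  · field_simp

theorem mir_mir (ω : Conf) : (fun i => (fun j => ω (mir.symm j)) (mir.symm i)) = ω := by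
  funext i
  simp [mir]

theorem hit_symm (p r : ℕ) : perc.real (Hit p r) = perc.real (Hit r p) := by
  rw [← hit_plane, ← hit_plane, ← perc_map mir (LeftP r ∪ PlaneArm p)]
  congr 1
  ext ω
  have hm : (fun i => ω (mir.symm i)) ∈ LeftP r ↔ ω ∈ PlaneArm r := by
    rw [leftP_iff, mir_mir]
  constructor
  · rintro (h | h)
    · exact Or.inr ((leftP_iff p ω).1 h)
    · exact Or.inl (hm.2 h)
  · rintro (h | h)
    · exact Or.inr (hm.1 h)
    · exact Or.inl ((leftP_iff p ω).2 h)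

/-- left wall given the hit -/
theorem left_cond (p r : ℕ → ℕ) (tp : Tendsto p atTop atTop) (tr : Tendsto r atTop atTop) {x : ℝ}
    (hx : Tendsto (fun n => (p n : ℝ) / (p n + r n)) atTop (𝓝 x)) :
    Tendsto (fun n => perc.real (ArmL (p n) (r n)) / perc.real (Hit (p n) (r n))) atTop
      (𝓝 ((1-x)^((1:ℝ)/3))) := by
  have hx' : Tendsto (fun n => (r n : ℝ) / (r n + p n)) atTop (𝓝 (1-x)) := by
    refine (tendsto_const_nhds.sub hx).congr' ?_
    filter_upwards [tp.eventually_gt_atTop 0] with n n1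
    have q1 : (0:ℝ) < p n := by exact_mod_cast n1
    have q2 : (0:ℝ) ≤ r n := Nat.cast_nonneg _
    have : (p n : ℝ) + r n ≠ 0 := by positivity
    have : (r n : ℝ) + p n ≠ 0 := by positivity
    field_simp
    ring
  have h := right_cond r p tr tp hx'
  refine h.congr fun n => ?_
  rw [armL_real, hit_symm (p n) (r n)]

/-- both walls given the hit -/
theorem both_cond (p r : ℕ → ℕ) (tp : Tendsto p atTop atTop) (tr : Tendsto r atTop atTop) {x : ℝ}
    (hx : Tendsto (fun n => (p n : ℝ) / (p n + r n)) atTop (𝓝 x)) :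
    Tendsto (fun n => perc.real (ArmL (p n) (r n) ∩ StripArm (p n) (r n)) /
      perc.real (Hit (p n) (r n))) atTop (𝓝 (x^((1:ℝ)/3) + (1-x)^((1:ℝ)/3) - 1)) := by
  have h1 := right_cond p r tp tr hx
  have h2 := left_cond p r tp tr hx
  have h3 := hit_asymp p r tp tr
  refine ((h1.add h2).sub_const 1).congr' ?_
  have h4 : ∀ᶠ n in atTop, perc.real (Hit (p n) (r n)) ≠ 0 := by
    filter_upwards [h3.eventually_ne cst_pos.ne'] with n hn h0
    exact hn (by rw [h0, zero_mul])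
  filter_upwards [h4] with n hn
  rw [both_real]
  field_simp
  ring

theorem hit_scale {α β : ℝ} (hα : 0 < α) (hβ : 0 < β) (δ : ℕ → ℝ) (p r : ℕ → ℕ)
    (hδ : ∀ n, 0 < δ n) (hδ0 : Tendsto δ atTop (𝓝 0))
    (hp : Tendsto (fun n => δ n * p n) atTop (𝓝 α)) (hr : Tendsto (fun n => δ n * r n) atTop (𝓝 β)) :
    Tendsto (fun n => perc.real (Hit (p n) (r n)) * (δ n)^(-((1:ℝ)/6))) atTop
      (𝓝 (√Real.pi / Real.Gamma (1/3) * ((α + β) / (α * β))^((1:ℝ)/6))) := by
  have hinv : Tendsto (fun n => (δ n)⁻¹) atTop atTop :=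
    (tendsto_nhdsWithin_iff.mpr ⟨hδ0, Eventually.of_forall hδ⟩).inv_tendsto_nhdsGT_zero
  have tp : Tendsto p atTop atTop := by
    rw [← tendsto_natCast_atTop_iff (R := ℝ)]
    refine (hinv.atTop_mul_pos hα hp).congr fun n => ?_
    rw [← mul_assoc, inv_mul_cancel₀ (hδ n).ne', one_mul]
  have tr : Tendsto r atTop atTop := by
    rw [← tendsto_natCast_atTop_iff (R := ℝ)]
    refine (hinv.atTop_mul_pos hβ hr).congr fun n => ?_
    rw [← mul_assoc, inv_mul_cancel₀ (hδ n).ne', one_mul]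
  have h1 := hit_asymp p r tp tr
  have hab : 0 < α + β := add_pos hα hβ
  have h2 : Tendsto (fun n => ((δ n * p n + δ n * r n) / ((δ n * p n) * (δ n * r n)))^((1:ℝ)/6)) atTop
      (𝓝 (((α + β) / (α * β))^((1:ℝ)/6))) :=
    ((hp.add hr).div (hp.mul hr) (by positivity)).rpow_const (Or.inr (by norm_num))
  refine (h1.mul h2).congr' ?_
  filter_upwards [tp.eventually_gt_atTop 0, tr.eventually_gt_atTop 0] with n n1 n2
  have q1 : (0:ℝ) < p n := by exact_mod_cast n1
  have q2 : (0:ℝ) < r n := by exact_mod_cast n2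
  have q3 := hδ n
  rw [mul_assoc, ← Real.mul_rpow (by positivity) (by positivity), Real.rpow_neg q3.le,
    ← Real.inv_rpow q3.le]
  congr 2
  field_simp

/-- the universal constant of the tip -/
noncomputable def Acst : ℝ := √Real.pi / (Real.Gamma (1/3) * (2 * Real.pi)^((1:ℝ)/6))

theorem kq_symm (α β : ℝ) : kq β α = (kq α β) := by
  unfold kq
  ring

theorem lim_right {α β : ℝ} (hα : 0 < α) (hβ : 0 < β) :
    √Real.pi / Real.Gamma (1/3) * (α / (β * (α + β)))^((1:ℝ)/6) =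
      Acst * (kq α β / Real.pi)^(-((1:ℝ)/6)) * (1 - α / (α + β))^(-((1:ℝ)/3)) := limit_eq hα hβ

theorem lim_left {α β : ℝ} (hα : 0 < α) (hβ : 0 < β) :
    √Real.pi / Real.Gamma (1/3) * (β / (α * (β + α)))^((1:ℝ)/6) =
      Acst * (kq α β / Real.pi)^(-((1:ℝ)/6)) * (α / (α + β))^(-((1:ℝ)/3)) := by
  rw [lim_right hβ hα, kq_symm α β]
  congr 2
  have : α + β ≠ 0 := by positivity
  have : β + α ≠ 0 := by positivity
  field_simp
  ring

theorem lim_hit {α β : ℝ} (hα : 0 < α) (hβ : 0 < β) :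
    √Real.pi / Real.Gamma (1/3) * ((α + β) / (α * β))^((1:ℝ)/6) =
      Acst * (kq α β / Real.pi)^(-((1:ℝ)/6)) *
        (α / (α + β) * (1 - α / (α + β)))^(-((1:ℝ)/3)) := by
  have hab : 0 < α + β := add_pos hα hβ
  have hx : 0 < α / (α + β) := by positivity
  have e1 : 1 - α / (α + β) = β / (α + β) := by field_simp; ring
  have hy : 0 ≤ 1 - α / (α + β) := by rw [e1]; positivity
  rw [Real.mul_rpow hx.le hy, mul_comm ((α / (α + β))^(-((1:ℝ)/3))), ← mul_assoc, ← lim_right hα hβ,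
    mul_assoc]
  congr 1
  have e2 : (α / (α + β))^(-((1:ℝ)/3)) = (((α / (α + β))^2)⁻¹)^((1:ℝ)/6) := by
    rw [← Real.rpow_natCast, ← Real.rpow_neg hx.le, ← Real.rpow_mul hx.le]
    norm_num
  rw [e2, ← Real.mul_rpow (by positivity) (by positivity)]
  congr 1
  field_simp

theorem armL_scale {α β : ℝ} (hα : 0 < α) (hβ : 0 < β) (δ : ℕ → ℝ) (p r : ℕ → ℕ)
    (hδ : ∀ n, 0 < δ n) (hδ0 : Tendsto δ atTop (𝓝 0))
    (hp : Tendsto (fun n => δ n * p n) atTop (𝓝 α)) (hr : Tendsto (fun n => δ n * r n) atTop (𝓝 β)) :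
    Tendsto (fun n => perc.real (ArmL (p n) (r n)) * (δ n)^(-((1:ℝ)/6))) atTop
      (𝓝 (Acst * (kq α β / Real.pi)^(-((1:ℝ)/6)) * (α / (α + β))^(-((1:ℝ)/3)))) := by
  rw [← lim_left hα hβ]
  refine (strip_scale hβ hα δ r p hδ hδ0 hr hp).congr fun n => ?_
  rw [armL_real]

theorem hit_scale' {α β : ℝ} (hα : 0 < α) (hβ : 0 < β) (δ : ℕ → ℝ) (p r : ℕ → ℕ)
    (hδ : ∀ n, 0 < δ n) (hδ0 : Tendsto δ atTop (𝓝 0))
    (hp : Tendsto (fun n => δ n * p n) atTop (𝓝 α)) (hr : Tendsto (fun n => δ n * r n) atTop (𝓝 β)) :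
    Tendsto (fun n => perc.real (Hit (p n) (r n)) * (δ n)^(-((1:ℝ)/6))) atTop
      (𝓝 (Acst * (kq α β / Real.pi)^(-((1:ℝ)/6)) *
        (α / (α + β) * (1 - α / (α + β)))^(-((1:ℝ)/3)))) := by
  rw [← lim_hit hα hβ]
  exact hit_scale hα hβ δ p r hδ hδ0 hp hr

theorem both_scale {α β : ℝ} (hα : 0 < α) (hβ : 0 < β) (δ : ℕ → ℝ) (p r : ℕ → ℕ)
    (hδ : ∀ n, 0 < δ n) (hδ0 : Tendsto δ atTop (𝓝 0))
    (hp : Tendsto (fun n => δ n * p n) atTop (𝓝 α)) (hr : Tendsto (fun n => δ n * r n) atTop (𝓝 β)) :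
    Tendsto (fun n => perc.real (ArmL (p n) (r n) ∩ StripArm (p n) (r n)) *
      (δ n)^(-((1:ℝ)/6))) atTop
      (𝓝 (Acst * (kq α β / Real.pi)^(-((1:ℝ)/6)) * ((α / (α + β))^(-((1:ℝ)/3)) +
        (1 - α / (α + β))^(-((1:ℝ)/3)) - (α / (α + β) * (1 - α / (α + β)))^(-((1:ℝ)/3))))) := by
  have h1 := armL_scale hα hβ δ p r hδ hδ0 hp hr
  have h2 := strip_scale hα hβ δ p r hδ hδ0 hp hr
  rw [lim_right hα hβ] at h2
  have h3 := hit_scale' hα hβ δ p r hδ hδ0 hp hr
  have h4 := (h1.add h2).sub h3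
  rw [← mul_add, ← mul_sub] at h4
  refine h4.congr fun n => ?_
  rw [both_real]
  ring

/-! ## the joint law of the extents in the slit plane -/

theorem plane_seq (b : ℕ → ℕ) (tb : Tendsto b atTop atTop) :
    Tendsto (fun n => perc.real (PlaneArm (b n)) * (b n : ℝ)^((1:ℝ)/6)) atTop
      (𝓝 (Real.sqrt Real.pi / Real.Gamma (1/3))) := plane_asymp.comp tb

/-- the scaling limit of the joint tail of the two extents -/
theorem joint_scale {s t : ℝ} (hs : 0 < s) (ht : 0 < t) (δ : ℕ → ℝ) (a b : ℕ → ℕ)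
    (hδ : ∀ n, 0 < δ n) (hδ0 : Tendsto δ atTop (𝓝 0))
    (ha : Tendsto (fun n => δ n * a n) atTop (𝓝 s)) (hb : Tendsto (fun n => δ n * b n) atTop (𝓝 t)) :
    Tendsto (fun n => perc.real (LeftP (a n) ∩ PlaneArm (b n)) * (δ n)^(-((1:ℝ)/6))) atTop
      (𝓝 (√Real.pi / Real.Gamma (1/3) *
        (s^(-((1:ℝ)/6)) + t^(-((1:ℝ)/6)) - ((s + t) / (s * t))^((1:ℝ)/6)))) := by
  have one : ∀ {s : ℝ} (_ : 0 < s) (a : ℕ → ℕ) (_ : Tendsto (fun n => δ n * a n) atTop (𝓝 s)),
      Tendsto (fun n => perc.real (PlaneArm (a n)) * (δ n)^(-((1:ℝ)/6))) atTop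
        (𝓝 (√Real.pi / Real.Gamma (1/3) * s^(-((1:ℝ)/6)))) := by
    intro s hs a ha
    have hinv : Tendsto (fun n => (δ n)⁻¹) atTop atTop :=
      (tendsto_nhdsWithin_iff.mpr ⟨hδ0, Eventually.of_forall hδ⟩).inv_tendsto_nhdsGT_zero
    have ta : Tendsto a atTop atTop := by
      rw [← tendsto_natCast_atTop_iff (R := ℝ)]
      refine (hinv.atTop_mul_pos hs ha).congr fun n => ?_
      rw [← mul_assoc, inv_mul_cancel₀ (hδ n).ne', one_mul]
    have h1 := plane_seq a ta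
    have h2 : Tendsto (fun n => (δ n * a n)^(-((1:ℝ)/6))) atTop (𝓝 (s^(-((1:ℝ)/6)))) :=
      ha.rpow_const (Or.inl hs.ne')
    refine (h1.mul h2).congr' ?_
    filter_upwards [ta.eventually_gt_atTop 0] with n n1
    have q1 : (0:ℝ) < a n := by exact_mod_cast n1
    have q3 := hδ n
    rw [Real.mul_rpow q3.le q1.le, mul_assoc]
    congr 1
    rw [Real.rpow_neg q1.le]
    have : 0 < (a n : ℝ)^((1:ℝ)/6) := Real.rpow_pos_of_pos q1 _
    field_simp
  have h1 := one hs a ha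
  have h2 := one ht b hb
  have h3 := hit_scale hs ht δ a b hδ hδ0 ha hb
  have h4 := (h1.add h2).sub h3
  rw [← mul_add, ← mul_sub] at h4
  refine h4.congr fun n => ?_
  rw [bothP_real, leftP_real]
  ring

end Pool.Agent.H29.TW
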