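import Pool.Agent.H29.TW.Closed2

/-!
The events in the coordinates of the tip `(1,0)`: translation, mirror symmetry, monotonicity.
-/

namespace Pool.Agent.H29.TW

open Pool.Agent.H988R2.Perc hiding X
open Pool.Agent.H981R2.TP
open Pool.Agent.H981R2.TP.PL
open MeasureTheory Finset Filter Topology

/-- the tip is joined to one of the two walls inside the slit strip -/
def Hit (p r : ℕ) : Set Conf :=
  {ω | ∃ y : ℤ × ℤ, (y.1 - y.2 = 1 - p ∨ y.1 - y.2 = 1 + r) ∧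
    Relation.ReflTransGen (SAdj p r ω) (1, 0) y}

/-- the tip is joined to the left wall inside the slit strip -/
def ArmL (p r : ℕ) : Set Conf :=
  {ω | ∃ y : ℤ × ℤ, y.1 - y.2 = 1 - p ∧ Relation.ReflTransGen (SAdj p r ω) (1, 0) y}

/-- the tip is joined to the column `1 - p` inside the slit plane -/
def LeftP (p : ℕ) : Set Conf :=
  {ω | ∃ y : ℤ × ℤ, y.1 - y.2 = 1 - p ∧ Relation.ReflTransGen (SlitAdj ω) (1, 0) y}

theorem hit_union (p r : ℕ) : Hit p r = ArmL p r ∪ StripArm p r := by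
  ext ω
  constructor
  · rintro ⟨y, h | h, hr⟩
    · exact Or.inl ⟨y, h, hr⟩
    · exact Or.inr ⟨y, h, hr⟩
  · rintro (⟨y, h, hr⟩ | ⟨y, h, hr⟩)
    · exact ⟨y, Or.inl h, hr⟩
    · exact ⟨y, Or.inr h, hr⟩

theorem hit_key {p r : ℕ} {ω : Conf} {z : ℤ × ℤ}
    (hz : Relation.ReflTransGen (SlitAdj ω) (1, 0) z) :
    (Relation.ReflTransGen (SAdj p r ω) (1, 0) z ∧ 1 - (p:ℤ) ≤ z.1 - z.2 ∧ z.1 - z.2 ≤ 1 + r) ∨
      ω ∈ Hit p r := by
  induction hz with
  | refl => exact Or.inl ⟨Relation.ReflTransGen.refl, by simp, by simp⟩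
  | @tail s t h1 h2 ih =>
    rcases ih with ⟨i1, i2, i3⟩ | ih
    · by_cases c1 : s.1 - s.2 = 1 - p
      · exact Or.inr ⟨s, Or.inl c1, i1⟩
      · by_cases c2 : s.1 - s.2 = 1 + r
        · exact Or.inr ⟨s, Or.inr c2, i1⟩
        · have hc := col_step h2.1
          have t1 : 1 - (p:ℤ) ≤ t.1 - t.2 := by omega
          have t2 : t.1 - t.2 ≤ 1 + r := by omega
          exact Or.inl ⟨i1.tail ⟨h2, i2, i3, t1, t2⟩, t1, t2⟩
    · exact Or.inr ih

theorem hit_plane (p r : ℕ) : LeftP p ∪ PlaneArm r = Hit p r := by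
  ext ω
  constructor
  · rintro (⟨y, h, hr⟩ | ⟨y, h, hr⟩)
    · rcases hit_key (p := p) (r := r) hr with ⟨h1, _⟩ | h1
      · exact ⟨y, Or.inl h, h1⟩
      · exact h1
    · rcases hit_key (p := p) (r := r) hr with ⟨h1, _⟩ | h1
      · exact ⟨y, Or.inr h, h1⟩
      · exact h1
  · rintro ⟨y, h | h, hr⟩
    · exact Or.inl ⟨y, h, rtg_mono (fun _ _ hh => hh.1) hr⟩
    · exact Or.inr ⟨y, h, rtg_mono (fun _ _ hh => hh.1) hr⟩

theorem leftP_anti {p p' : ℕ} (h : p ≤ p') : LeftP p' ⊆ LeftP p := by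
  rintro ω ⟨y, hy, hr⟩
  have key : ∀ z, Relation.ReflTransGen (SlitAdj ω) (1, 0) z →
      1 - (p:ℤ) < z.1 - z.2 ∨ ω ∈ LeftP p := by
    intro z hz
    induction hz with
    | refl =>
      by_cases hp : p = 0
      · right
        exact ⟨(1,0), by simp [hp], Relation.ReflTransGen.refl⟩
      · left
        show 1 - (p:ℤ) < 1 - 0
        omega
    | @tail s t h1 h2 ih =>
      rcases ih with ih | ih
      · have hc := col_step h2.1
        by_cases ht : 1 - (p:ℤ) < t.1 - t.2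
        · exact Or.inl ht
        · exact Or.inr ⟨t, by omega, h1.tail h2⟩
      · exact Or.inr ih
  rcases key y hr with h1 | h1
  · by_cases hp : p = p'
    · rw [hp]; exact ⟨y, hy, hr⟩
    · omega
  · exact h1

theorem hit_anti {p p' r r' : ℕ} (hp : p ≤ p') (hr : r ≤ r') : Hit p' r' ⊆ Hit p r := by
  rw [← hit_plane, ← hit_plane]
  exact Set.union_subset_union (leftP_anti hp) (plane_anti hr)

/-! ## mirror symmetry -/

/-- reflection of the edges at the column `1` -/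
def mir : Edge ≃ Edge where
  toFun e := (e.2.1 + 1, e.1 - 1, !e.2.2)
  invFun e := (e.2.1 + 1, e.1 - 1, !e.2.2)
  left_inv e := by simp
  right_inv e := by simp

theorem openAdj_mir (ω : Conf) (x y : ℤ × ℤ) :
    OpenAdj (fun i => ω (mir.symm i)) (x.2 + 1, x.1 - 1) (y.2 + 1, y.1 - 1) ↔ OpenAdj ω x y := by
  obtain ⟨x1, x2⟩ := x
  obtain ⟨y1, y2⟩ := y
  unfold OpenAdj mir
  simp only [Equiv.coe_fn_symm_mk, Prod.mk.injEq, sub_add_cancel, add_sub_cancel_right,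
    Bool.not_true, Bool.not_false]
  have e1 : (y2 + 1 = x2 + 1 + 1 ∧ y1 - 1 = x1 - 1) ↔ (y1 = x1 ∧ y2 = x2 + 1) := by omega
  have e2 : (x2 + 1 = y2 + 1 + 1 ∧ x1 - 1 = y1 - 1) ↔ (x1 = y1 ∧ x2 = y2 + 1) := by omega
  have e3 : (y2 + 1 = x2 + 1 ∧ y1 - 1 = x1) ↔ (y1 = x1 + 1 ∧ y2 = x2) := by omega
  have e4 : (x2 + 1 = y2 + 1 ∧ x1 - 1 = y1) ↔ (x1 = y1 + 1 ∧ x2 = y2) := by omega
  rw [e1, e2, e3, e4]
  constructor
  · rintro (h | h | h | h)
    · exact Or.inr (Or.inr (Or.inl h))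
    · exact Or.inr (Or.inr (Or.inr h))
    · exact Or.inl h
    · exact Or.inr (Or.inl h)
  · rintro (h | h | h | h)
    · exact Or.inr (Or.inr (Or.inl h))
    · exact Or.inr (Or.inr (Or.inr h))
    · exact Or.inl h
    · exact Or.inr (Or.inl h)

theorem slitAdj_mir (ω : Conf) (x y : ℤ × ℤ) :
    SlitAdj (fun i => ω (mir.symm i)) (x.2 + 1, x.1 - 1) (y.2 + 1, y.1 - 1) ↔ SlitAdj ω x y := by
  unfold SlitAdj
  rw [openAdj_mir]
  simp only
  constructor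
  · rintro ⟨e1, e2⟩
    exact ⟨e1, by omega⟩
  · rintro ⟨e1, e2⟩
    exact ⟨e1, by omega⟩

theorem sAdj_mir (p r : ℕ) (ω : Conf) (x y : ℤ × ℤ) :
    SAdj r p (fun i => ω (mir.symm i)) (x.2 + 1, x.1 - 1) (y.2 + 1, y.1 - 1) ↔ SAdj p r ω x y := by
  unfold SAdj
  rw [slitAdj_mir]
  simp only
  constructor
  · rintro ⟨e1, e2, e3, e4, e5⟩
    exact ⟨e1, by omega, by omega, by omega, by omega⟩
  · rintro ⟨e1, e2, e3, e4, e5⟩
    exact ⟨e1, by omega, by omega, by omega, by omega⟩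

theorem armL_iff (p r : ℕ) (ω : Conf) :
    ω ∈ ArmL p r ↔ (fun i => ω (mir.symm i)) ∈ StripArm r p := by
  constructor
  · rintro ⟨y, h3, h4⟩
    refine ⟨(y.2 + 1, y.1 - 1), by simp only; omega, ?_⟩
    exact h4.lift (fun z : ℤ × ℤ => (z.2 + 1, z.1 - 1)) fun x y h => (sAdj_mir p r ω x y).2 h
  · rintro ⟨y, h3, h4⟩
    refine ⟨(y.2 + 1, y.1 - 1), by simp only; omega, ?_⟩
    refine h4.lift (fun z : ℤ × ℤ => (z.2 + 1, z.1 - 1)) fun x y h => ?_
    show SAdj p r ω (x.2 + 1, x.1 - 1) (y.2 + 1, y.1 - 1)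
    rw [← sAdj_mir p r ω]
    simpa using h

theorem leftP_iff (p : ℕ) (ω : Conf) :
    ω ∈ LeftP p ↔ (fun i => ω (mir.symm i)) ∈ PlaneArm p := by
  constructor
  · rintro ⟨y, h3, h4⟩
    refine ⟨(y.2 + 1, y.1 - 1), by simp only; omega, ?_⟩
    exact h4.lift (fun z : ℤ × ℤ => (z.2 + 1, z.1 - 1)) fun x y h => (slitAdj_mir ω x y).2 h
  · rintro ⟨y, h3, h4⟩
    refine ⟨(y.2 + 1, y.1 - 1), by simp only; omega, ?_⟩
    refine h4.lift (fun z : ℤ × ℤ => (z.2 + 1, z.1 - 1)) fun x y h => ?_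
    show SlitAdj ω (x.2 + 1, x.1 - 1) (y.2 + 1, y.1 - 1)
    rw [← slitAdj_mir ω]
    simpa using h

theorem armL_real (p r : ℕ) : perc.real (ArmL p r) = perc.real (StripArm r p) := by
  rw [← perc_map mir (StripArm r p)]
  congr 1
  ext ω
  exact armL_iff p r ω

theorem leftP_real (p : ℕ) : perc.real (LeftP p) = perc.real (PlaneArm p) := by
  rw [← perc_map mir (PlaneArm p)]
  congr 1
  ext ω
  exact leftP_iff p ω

/-! ## the exact value -/

theorem hit_shift (m k : ℕ) : perc.real (Hit (2*m+2) (2*k+2)) =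
    perc.real (HitT (2*m+2) (2*k+1)) := by
  rw [← perc_map (sh (m+1) (-(m+1))) (HitT (2*m+2) (2*k+1))]
  congr 1
  have hc : (2*m+2)/2 = m+1 := by omega
  have hstep : ∀ (ω : Conf) (x y : ℤ × ℤ), SAdj (2*m+2) (2*k+2) ω x y ↔
      HAdj (2*m+2) (2*k+1) (fun i => ω ((sh (m+1) (-(m+1))).symm i)) (x.1 + (m+1), x.2 + (-(m+1)))
        (y.1 + (m+1), y.2 + (-(m+1))) := by
    intro ω x y
    unfold SAdj SlitAdj HAdj TipAdj
    rw [openAdj_sh]
    simp only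
    push_cast
    constructor
    · rintro ⟨⟨e1, e2⟩, e3, e4, e5, e6⟩
      exact ⟨⟨e1, by omega, by omega, by omega⟩, by omega, by omega⟩
    · rintro ⟨⟨e1, e2, e3, e4⟩, e5, e6⟩
      exact ⟨⟨e1, by omega⟩, by omega, by omega, by omega, by omega⟩
  have et : tip (2*m+2) = ((1:ℤ) + (m+1), (0:ℤ) + (-(m+1))) := by
    unfold tip
    rw [hc]
    ext
    · push_cast; ring
    · push_cast; ring
  ext ω
  constructor
  · rintro ⟨y, h3, h4⟩
    refine ⟨(y.1 + (m+1), y.2 + (-(m+1))), ?_, ?_⟩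
    · simp only
      push_cast at h3 ⊢
      omega
    · rw [et]
      exact h4.lift (fun z : ℤ × ℤ => (z.1 + ((m:ℤ)+1), z.2 + (-((m:ℤ)+1))))
        fun p q hpq => (hstep ω p q).mp hpq
  · rintro ⟨y, h3, h4⟩
    refine ⟨(y.1 - (m+1), y.2 - (-(m+1))), ?_, ?_⟩
    · simp only
      push_cast at h3 ⊢
      omega
    · have h5 : Relation.ReflTransGen (SAdj (2*m+2) (2*k+2) ω)
          ((tip (2*m+2)).1 - ((m:ℤ)+1), (tip (2*m+2)).2 - (-((m:ℤ)+1)))
          (y.1 - ((m:ℤ)+1), y.2 - (-((m:ℤ)+1))) :=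
        h4.lift (p := SAdj (2*m+2) (2*k+2) ω)
        (fun z : ℤ × ℤ => (z.1 - ((m:ℤ)+1), z.2 - (-((m:ℤ)+1)))) (fun p q hpq => by
          show SAdj (2*m+2) (2*k+2) ω (p.1 - ((m:ℤ)+1), p.2 - (-((m:ℤ)+1)))
            (q.1 - ((m:ℤ)+1), q.2 - (-((m:ℤ)+1)))
          rw [hstep]
          simpa using hpq)
      have e : ((tip (2*m+2)).1 - ((m:ℤ)+1), (tip (2*m+2)).2 - (-((m:ℤ)+1))) = ((1:ℤ), (0:ℤ)) := by
        rw [et]
        ext
        · simp only; ring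
        · simp only; ring
      rw [e] at h5
      exact h5

theorem hit_exact {p r : ℕ} (hp : Even p) (hp0 : 0 < p) (hr : Even r) (hr0 : 0 < r) :
    perc.real (Hit p r) = hitVal p r := by
  obtain ⟨i, hi⟩ := hp
  obtain ⟨m, rfl⟩ : ∃ m, i = m + 1 := ⟨i - 1, by omega⟩
  obtain rfl : p = 2*m+2 := by omega
  obtain ⟨j, hj⟩ := hr
  obtain ⟨k, rfl⟩ : ∃ k, j = k + 1 := ⟨j - 1, by omega⟩
  obtain rfl : r = 2*k+2 := by omega
  rw [hit_shift, hitT_exact, hit_closed]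

end Pool.Agent.H29.TW
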