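import Pool.Graph.R_seed8.H981R2.TP.Main
import Pool.Graph.R_seed8.H981R2.TP.Closed

/-!
The slit tip and the two walls: the algebraic part. The inhomogeneous formula of the tip
(starting library, `H981R2.TP`) is polynomial in the first parameter; at the value `0` of this
parameter the left wall becomes wired.
-/

namespace Pool.Agent.H29.TW

open Pool.Agent.H988R2.Perc hiding X
open Pool.Agent.H492C
open Pool.Agent.H981R2.TP
open Finset Polynomial

/-- vector of the strip with both walls wired (`N` odd) -/
noncomputable def wW (N : ℕ) : St →₀ ℂ := Psi (0 :: (List.replicate (N-1) 1 ++ [0]))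

/-- vector of the strip with the left wall wired (`N` even) -/
noncomputable def wL (N : ℕ) : St →₀ ℂ := Psi (0 :: List.replicate (N-1) 1)

theorem at_zero (n b : ℕ) (hn : Odd n) (hb : Odd b) :
    pairG (n+1+1) (n+1+2+b)
      (Psi (0 :: (List.replicate n 1 ++ 1 :: 1 :: (List.replicate b 1 ++ [0]))))
      (comb2 ((n+1)/2+1) (Psi (0 :: List.replicate n 1)) (up1 (List.replicate b 1))) =
    3 * q^(b+1) * Z (0 :: (List.replicate n 1 ++ [1,0])) * Z (List.replicate b 1 ++ [1]) *
      Z (0 :: (List.replicate n 1 ++ 1 :: List.replicate b 1)) := by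
  obtain ⟨S, h1, h2, h3⟩ := g4_supp (n + (b + 3) + 1) (n + 1) (b + 1)
  obtain ⟨P, hP, hP'⟩ := g4_poly (n+1+1) (n+1+2+b) ((n+1)/2+1)
    (f := fun t => Psi (t :: (List.replicate n 1 ++ 1 :: 1 :: (List.replicate b 1 ++ [0]))))
    (g := fun t => Psi (t :: List.replicate n 1)) (h := fun _ => up1 (List.replicate b 1)) (S := S)
    (d1 := n + b + 2) (d2 := n - 1) (d3 := 0)
    (fun t => h1 _ (by simp)) (fun _ => h2 _ (by simp))
    (fun _ => h3 _ (by simp))
    (fun R => by
      obtain ⟨P, hP, hP'⟩ := g4_pd [] (List.replicate n 1 ++ 1 :: 1 :: (List.replicate b 1 ++ [0])) (by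
        simp only [List.length_append, List.length_nil, List.length_cons, List.length_replicate]
        obtain ⟨a, ha⟩ := hn
        obtain ⟨b, hb⟩ := hb
        exact ⟨a + b + 3, by omega⟩) R
      refine ⟨P, ?_, hP'⟩
      simp only [List.length_append, List.length_nil, List.length_cons, List.length_replicate] at hP
      omega)
    (fun R => by
      obtain ⟨P, hP, hP'⟩ := g4_pd [] (List.replicate n 1) (by
        simp only [List.length_nil, List.length_replicate]
        obtain ⟨a, ha⟩ := hn
        exact ⟨a + 1, by omega⟩) R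
      refine ⟨P, ?_, hP'⟩
      simp only [List.length_nil, List.length_replicate] at hP
      omega)
    (fun R => g4_const _ R)
  obtain ⟨Q1, _, hQ1⟩ := (Z_pd (n + 3) (by obtain ⟨a, ha⟩ := hn; exact ⟨a + 2, by omega⟩)).univ []
    (List.replicate n 1 ++ [1,0]) (by simp)
  obtain ⟨Q2, _, hQ2⟩ := (Z_pd (n + b + 2) (by
    obtain ⟨a, ha⟩ := hn; obtain ⟨c, hc⟩ := hb; exact ⟨a + c + 2, by omega⟩)).univ []
    (List.replicate n 1 ++ 1 :: List.replicate b 1) (by simp; ring)
  simp only [List.nil_append] at hQ1 hQ2
  have key : P = C (3 * q^(b+1) * Z (List.replicate b 1 ++ [1])) * Q1 * Q2 := by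
    apply mul_left_cancel₀ (X_ne_zero (R := ℂ))
    refine Polynomial.funext fun t => ?_
    rw [eval_mul, eval_mul, eval_X]
    by_cases ht : t = 0
    · rw [ht, zero_mul, zero_mul]
    congr 1
    rw [← hP' t, eval_mul, eval_mul, eval_C, ← hQ1, ← hQ2]
    have e := Psi_inv1 t (List.replicate n 1) ht (by rw [List.length_replicate]; exact hn)
    rw [List.length_replicate] at e
    have hF := s_F (t :: List.replicate n 1) (List.replicate b 1)
      (by rw [List.length_cons, List.length_replicate]; exact hn.add_one) (by simpa using hb)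
      (by
        intro z hz
        rw [List.cons_append, List.mem_cons, List.mem_append] at hz
        rcases hz with h | h | h
        · rw [h]; exact ht
        · rw [List.eq_of_mem_replicate h]; exact one_ne_zero
        · rw [List.eq_of_mem_replicate h]; exact one_ne_zero)
    have hG : pairG (n+1+1) (n+1+2+b)
        (Psi (t :: (List.replicate n 1 ++ 1 :: 1 :: (List.replicate b 1 ++ [0]))))
        (comb2 ((n+1)/2+1) (Psi (t :: List.replicate n 1)) (up1 (List.replicate b 1))) =
        t^(n-1) * GR2 (t :: List.replicate n 1) (List.replicate b 1) := by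
      rw [e, g4_smul_left, g4_pair_smul]
      unfold GR2
      simp only [List.length_cons, List.map_cons, List.cons_append, List.length_replicate,
        List.map_replicate, inv_one]
    rw [hG, hF]
    unfold RH
    simp only [List.length_cons, List.length_replicate, List.prod_cons, List.prod_replicate,
      one_pow, mul_one, List.cons_append, one_zpow]
    have e2 : t^(n-1) * t^((2:ℤ) - ((n + 1 : ℕ) : ℤ)) = 1 := by
      obtain ⟨a, ha⟩ := hn
      rw [← zpow_natCast, ← zpow_add₀ ht]
      have : ((n - 1 : ℕ) : ℤ) + (2 - ((n + 1 : ℕ) : ℤ)) = 0 := by omega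
      rw [this, zpow_zero]
    linear_combination (3 * q^(b+1) * Z (t :: (List.replicate n 1 ++ [1,0])) *
      Z (List.replicate b 1 ++ [1]) * Z (t :: (List.replicate n 1 ++ 1 :: List.replicate b 1))) * e2
  rw [hP' 0, key, eval_mul, eval_mul, eval_C, ← hQ1, ← hQ2]
  ring

end Pool.Agent.H29.TW
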