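import Pool.Agent.H29.TW.Hit
import Pool.Graph.R_seed8.H981R2.TP.Plane2

/-!
Closed form of the probability that the tip is joined to one of the two walls; asymptotics.
-/

namespace Pool.Agent.H29.TW

open Pool.Agent.H988R2.Perc hiding X
open Pool.Agent.H981R2.TP
open MeasureTheory Finset Filter Topology

/-- `(1/3)_n / (1/2)_n` -/
noncomputable def fr (n : ℕ) : ℝ := rising (1/3) n / rising (1/2) n

theorem fr_pos (n : ℕ) : 0 < fr n := div_pos (rising_pos (by norm_num) _) (rising_pos (by norm_num) _)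

/-- the closed form -/
noncomputable def hitVal (p r : ℕ) : ℝ := fr p * fr r / fr (p + r)

theorem t25_fr (n : ℕ) : t25r (2*n+1) = 27/16 * (81/16)^n * fr (2*n+2) := by
  rw [D2_odd]
  have e : ∏ j ∈ range (2*n+1), (((1/3 : ℝ) + j) / ((1/2 : ℝ) + j)) =
      rising (1/3) (2*n+1) / rising (1/2) (2*n+1) := by
    unfold rising; rw [prod_div_distrib]
  rw [e]
  unfold fr
  have i : 2*n+2 = 2*n+1+1 := by ring
  rw [i, rising_succ (1/3) (2*n+1), rising_succ (1/2) (2*n+1)]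
  have r1 := (rising_pos (by norm_num : (0:ℝ) < 1/2) (2*n+1)).ne'
  generalize rising (1/3) (2*n+1) = R1 at *
  generalize rising (1/2) (2*n+1) = R2 at *
  push_cast
  have d1 : (4*(n:ℝ)+3) ≠ 0 := by positivity
  have d2 : (1/2 + (2*(n:ℝ)+1)) ≠ 0 := by positivity
  field_simp
  ring

theorem hit_closed (m k : ℕ) : hitFormula (2*m+2) (2*k+1) = hitVal (2*m+2) (2*k+2) := by
  have c1 : chi (2*m+1+1) = chi (2*m+1) * t25r (2*m+1) := t25_succ (2*m+1)
  have c2 : chi (2*k+1+1) = chi (2*k+1) * t25r (2*k+1) := t25_succ (2*k+1)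
  have c3 : chi (2*(m+k+1)+1+1) = chi (2*(m+k+1)+1) * t25r (2*(m+k+1)+1) :=
    t25_succ (2*(m+k+1)+1)
  unfold hitFormula hitVal
  have i1 : 2*m+2 = 2*m+1+1 := rfl
  have i2 : 2*m+2-1 = 2*m+1 := rfl
  have i3 : 2*m+2 + (2*k+1) = 2*(m+k+1)+1 := by ring
  have i4 : 2*m+2 + (2*k+1) + 1 = 2*(m+k+1)+1+1 := by ring
  rw [i2, i4, i3, i1, c1, c2, c3, t25_fr, t25_fr, t25_fr]
  have j1 : 2*m+1+1 = 2*m+2 := rfl
  have j2 : 2*m+1+1+(2*k+2) = 2*(m+k+1)+2 := by ring
  rw [j2, j1]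
  have p1 := (chi_pos (2*m+1)).ne'
  have p2 := (chi_pos (2*k+1)).ne'
  have p3 := (chi_pos (2*(m+k+1)+1)).ne'
  have f1 := (fr_pos (2*m+2)).ne'
  have f2 := (fr_pos (2*k+2)).ne'
  have f3 := (fr_pos (2*(m+k+1)+2)).ne'
  have hp : ((81/16 : ℝ)^(m+k+1)) = (81/16)^m * (81/16)^k * (81/16) := by
    rw [pow_succ, pow_add]
  rw [hp]
  have q1 : ((81/16 : ℝ))^m ≠ 0 := by positivity
  have q2 : ((81/16 : ℝ))^k ≠ 0 := by positivity
  generalize ((81/16 : ℝ))^m = P at *
  generalize ((81/16 : ℝ))^k = Q at *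
  generalize fr (2*m+2) = R1 at *
  generalize fr (2*k+2) = R2 at *
  generalize fr (2*(m+k+1)+2) = R3 at *
  generalize chi (2*m+1) = X1 at *
  generalize chi (2*k+1) = X2 at *
  generalize chi (2*(m+k+1)+1) = X3 at *
  field_simp
  ring

theorem fr_asymp (r : ℕ → ℕ) (tr : Tendsto r atTop atTop) :
    Tendsto (fun n => fr (r n) * (r n : ℝ)^((1:ℝ)/6)) atTop
      (𝓝 (Real.sqrt Real.pi / Real.Gamma (1/3))) := PL.planeVal_asymp r tr

theorem hitVal_asymp (p r : ℕ → ℕ) (tp : Tendsto p atTop atTop) (tr : Tendsto r atTop atTop) :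
    Tendsto (fun n => hitVal (p n) (r n) * ((p n : ℝ) * r n / (p n + r n))^((1:ℝ)/6)) atTop
      (𝓝 (Real.sqrt Real.pi / Real.Gamma (1/3))) := by
  have ts : Tendsto (fun n => p n + r n) atTop atTop :=
    tendsto_atTop_mono (fun n => Nat.le_add_right _ _) tp
  have h1 := fr_asymp p tp
  have h2 := fr_asymp r tr
  have hg : Real.sqrt Real.pi / Real.Gamma (1/3) ≠ 0 :=
    (div_pos (Real.sqrt_pos.2 Real.pi_pos) (Real.Gamma_pos_of_pos (by norm_num))).ne'
  have h3 := (fr_asymp _ ts).inv₀ hg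
  have h4 := (h1.mul h2).mul h3
  have e : Real.sqrt Real.pi / Real.Gamma (1/3) * (Real.sqrt Real.pi / Real.Gamma (1/3)) *
      (Real.sqrt Real.pi / Real.Gamma (1/3))⁻¹ = Real.sqrt Real.pi / Real.Gamma (1/3) := by
    field_simp
  rw [e] at h4
  refine h4.congr' ?_
  filter_upwards [tp.eventually_gt_atTop 0, tr.eventually_gt_atTop 0] with n hn1 hn2
  have hp : (0:ℝ) < p n := by exact_mod_cast hn1
  have hr : (0:ℝ) < r n := by exact_mod_cast hn2
  have hs : (0:ℝ) < p n + r n := by positivity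
  rw [Real.div_rpow (by positivity) hs.le, Real.mul_rpow hp.le hr.le]
  push_cast
  have p1 : (0:ℝ) < (p n : ℝ)^((1:ℝ)/6) := Real.rpow_pos_of_pos hp _
  have p2 : (0:ℝ) < (r n : ℝ)^((1:ℝ)/6) := Real.rpow_pos_of_pos hr _
  have p3 : (0:ℝ) < ((p n : ℝ) + r n)^((1:ℝ)/6) := Real.rpow_pos_of_pos hs _
  unfold hitVal
  have f3 := (fr_pos (p n + r n)).ne'
  field_simp

theorem hit_ratio {p r p' r' : ℕ → ℕ} (tp : Tendsto p atTop atTop) (tr : Tendsto r atTop atTop)
    (hp : ∀ n, |(p' n : ℝ) - p n| ≤ 1) (hr : ∀ n, |(r' n : ℝ) - r n| ≤ 1) :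
    Tendsto (fun n => hitVal (p' n) (r' n) * ((p n : ℝ) * r n / (p n + r n))^((1:ℝ)/6)) atTop
      (𝓝 (Real.sqrt Real.pi / Real.Gamma (1/3))) := by
  have cp : Tendsto (fun n => (p n : ℝ)) atTop atTop := tendsto_natCast_atTop_atTop.comp tp
  have cr : Tendsto (fun n => (r n : ℝ)) atTop atTop := tendsto_natCast_atTop_atTop.comp tr
  have tp' : Tendsto p' atTop atTop := by
    have : Tendsto (fun n => (p' n : ℝ)) atTop atTop := by
      refine tendsto_atTop_mono (f := fun n => (p n : ℝ) + (-1)) (fun n => ?_)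
        (tendsto_atTop_add_const_right _ _ cp)
      have := (abs_le.mp (hp n)).1
      linarith
    exact tendsto_natCast_atTop_iff.mp this
  have tr' : Tendsto r' atTop atTop := by
    have : Tendsto (fun n => (r' n : ℝ)) atTop atTop := by
      refine tendsto_atTop_mono (f := fun n => (r n : ℝ) + (-1)) (fun n => ?_)
        (tendsto_atTop_add_const_right _ _ cr)
      have := (abs_le.mp (hr n)).1
      linarith
    exact tendsto_natCast_atTop_iff.mp this
  have h0 := hitVal_asymp p' r' tp' tr'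
  have h1 := PL.ratio_one cp 1 hp
  have h2 := PL.ratio_one cr 1 hr
  have h3 : Tendsto (fun n => ((p' n : ℝ) + r' n) / (p n + r n)) atTop (𝓝 1) := by
    refine PL.ratio_one (x := fun n => (p n : ℝ) + r n) (x' := fun n => (p' n : ℝ) + r' n)
      (tendsto_atTop_mono (fun n => le_add_of_nonneg_right (Nat.cast_nonneg (r n))) cp) 2
      fun n => ?_
    have a1 := abs_le.mp (hp n)
    have a2 := abs_le.mp (hr n)
    rw [abs_le]
    constructor <;> linarith
  have h4 := ((h2.inv₀ one_ne_zero).mul h3).mul (h1.inv₀ one_ne_zero)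
  have e4 : ((1:ℝ)⁻¹ * 1 * 1⁻¹) = 1 := by norm_num
  rw [e4] at h4
  have h5 := h4.rpow_const (p := (1:ℝ)/6) (Or.inl one_ne_zero)
  rw [Real.one_rpow] at h5
  have h6 := h0.mul h5
  rw [mul_one] at h6
  refine h6.congr' ?_
  filter_upwards [tp.eventually_gt_atTop 0, tr.eventually_gt_atTop 0, tp'.eventually_gt_atTop 0,
    tr'.eventually_gt_atTop 0] with n n1 n2 n3 n4
  have q1 : (0:ℝ) < p n := by exact_mod_cast n1
  have q2 : (0:ℝ) < r n := by exact_mod_cast n2
  have q3 : (0:ℝ) < p' n := by exact_mod_cast n3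
  have q4 : (0:ℝ) < r' n := by exact_mod_cast n4
  rw [mul_assoc, ← Real.mul_rpow (by positivity) (by positivity)]
  congr 2
  field_simp

end Pool.Agent.H29.TW
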