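import Pool.Agent.H29.TW.Stat
import Pool.Graph.R_seed8.H988R2.Perc.T24

/-! The slit tip and the two walls: convergence of the laws of the states. -/

namespace Pool.Agent.H29.TW

open Pool.Agent.H988R2.Perc hiding X
open Pool.Agent.H988R2.Perc.T24
open Finset Filter Topology

/-- all the odd faces `≤ K` are joined -/
def top (K : ℕ) : St where
  rel a b := a = b ∨ (a % 2 = 1 ∧ b % 2 = 1 ∧ a ≤ K ∧ b ≤ K)
  eqv := by
    refine ⟨fun _ => Or.inl rfl, ?_, ?_⟩
    · rintro a b (h | ⟨h1, h2, h3, h4⟩)
      · exact Or.inl h.symm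
      · exact Or.inr ⟨h2, h1, h4, h3⟩
    · rintro a b c (h | ⟨h1, h2, h3, h4⟩) (k | ⟨k1, k2, k3, k4⟩)
      · exact Or.inl (h.trans k)
      · subst h; exact Or.inr ⟨k1, k2, k3, k4⟩
      · subst k; exact Or.inr ⟨h1, h2, h3, h4⟩
      · exact Or.inr ⟨h1, k2, h3, k4⟩
  odd := by
    rintro a b (h | ⟨h1, h2, _⟩)
    · exact Or.inl h
    · exact Or.inr ⟨h1, h2⟩

theorem eq_top {K : ℕ} {R : St} (h1 : ∀ a b, a % 2 = 1 → b % 2 = 1 → a ≤ K → b ≤ K → R.rel a b)
    (h2 : Bd (K+1) R) : R = top K := by
  apply St.ext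
  funext a b
  apply propext
  constructor
  · intro h
    rcases h2 a b h with h' | ⟨h3, h4⟩
    · exact Or.inl h'
    · rcases R.odd a b h with h' | ⟨h5, h6⟩
      · exact Or.inl h'
      · exact Or.inr ⟨h5, h6, by omega, by omega⟩
  · rintro (h | ⟨h3, h4, h5, h6⟩)
    · subst h; exact R.eqv.refl a
    · exact h1 a b h3 h4 h5 h6

/-- the good branch of a tile: the odd tiles join -/
def gd (i : ℕ) (R : St) : St := if i % 2 = 1 then St.act i R else R

theorem dob_tileF (i : ℕ) : Dob (tileF i) (gd i) (1/2) where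
  pos := by norm_num
  le := by norm_num
  add f g := by
    unfold tileF
    split_ifs
    · exact Finsupp.mapDomain_add
    · exact (dob_tile i).add f g
  smul c f := tileF_smul i c f
  mass f := by
    unfold tileF
    split_ifs
    · exact T24.mass_mapDomain _ _
    · exact (dob_tile i).mass f
  dec f := by
    have hh : ((1/2 : ℝ) : ℂ) = (1/2 : ℂ) := by push_cast; rfl
    have hn : ‖(1/2 : ℂ)‖ = 1/2 := by norm_num
    unfold tileF
    split_ifs with h1
    · have e : Finsupp.mapDomain (St.act 1) f - ((1/2 : ℝ) : ℂ) • Finsupp.mapDomain (gd i) f =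
          (1/2 : ℂ) • Finsupp.mapDomain (St.act 1) f := by
        have : gd i = St.act 1 := by funext R; simp [gd, h1]
        rw [this, hh]
        module
      rw [e, nrm_smul, hn]
      have := nrm_mapDomain_le (St.act 1) f
      linarith
    · by_cases hi : i % 2 = 1
      · have e : tile i f - ((1/2 : ℝ) : ℂ) • Finsupp.mapDomain (gd i) f = (1/2 : ℂ) • f := by
          have : gd i = St.act i := by funext R; simp [gd, hi]
          rw [this, hh]
          unfold tile
          rw [smul_add]
          abel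
        rw [e, nrm_smul, hn]
        linarith
      · have e : tile i f - ((1/2 : ℝ) : ℂ) • Finsupp.mapDomain (gd i) f =
            (1/2 : ℂ) • Finsupp.mapDomain (St.act i) f := by
          have : gd i = id := by funext R; simp [gd, hi]
          rw [this, hh, Finsupp.mapDomain_id]
          unfold tile
          rw [smul_add]
          abel
        rw [e, nrm_smul, hn]
        have := nrm_mapDomain_le (St.act i) f
        linarith

def gfw : ℕ → St → St
  | 0, R => R
  | L+1, R => gd (L+1) (gfw L R)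

def gbw : ℕ → St → St
  | 0, R => R
  | L+1, R => gbw L (gd (L+1) R)

theorem dob_fwdF (L : ℕ) : Dob (fwdF L) (gfw L) ((1/2)^L) := by
  induction L with
  | zero =>
    have h := dob_map (fun R => R)
    have e : (Finsupp.mapDomain (fun R : St => R) : (St →₀ ℂ) → (St →₀ ℂ)) = fwdF 0 := by
      funext f
      exact Finsupp.mapDomain_id
    rw [e] at h
    have e2 : gfw 0 = (fun R => R) := rfl
    rw [e2, pow_zero]
    exact h
  | succ L ih =>
    have h := (dob_tileF (L+1)).comp ih
    rw [pow_succ, mul_comm]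
    exact h

theorem dob_bwdF (L : ℕ) : Dob (bwdF L) (gbw L) ((1/2)^L) := by
  induction L with
  | zero =>
    have h := dob_map (fun R => R)
    have e : (Finsupp.mapDomain (fun R : St => R) : (St →₀ ℂ) → (St →₀ ℂ)) = bwdF 0 := by
      funext f
      exact Finsupp.mapDomain_id
    rw [e] at h
    have e2 : gbw 0 = (fun R => R) := rfl
    rw [e2, pow_zero]
    exact h
  | succ L ih =>
    have h := ih.comp (dob_tileF (L+1))
    rw [pow_succ]
    exact h

/-- the good branch of the double row -/
def gTF (L : ℕ) (R : St) : St := St.cap 0 (gbw L (gfw L (St.ins 0 R)))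

theorem dob_TF (L : ℕ) : Dob (TF L) (gTF L) ((1/2)^L * (1/2)^L) := by
  have h := (dob_map (St.cap 0)).comp ((dob_bwdF L).comp ((dob_fwdF L).comp (dob_map (St.ins 0))))
  rw [one_mul, mul_one] at h
  exact h

theorem bd_gd {K i : ℕ} (hi : i + 2 < K) {R : St} (hR : Bd K R) : Bd K (gd i R) := by
  unfold gd
  split_ifs
  · exact bd_act hi hR
  · exact hR

theorem bd_gfw {K : ℕ} (L : ℕ) (hi : L + 2 < K) {R : St} (hR : Bd K R) : Bd K (gfw L R) := by
  induction L with
  | zero => exact hR
  | succ L ih => exact bd_gd hi (ih (by omega))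

theorem gfw_rel (L : ℕ) (R : St) (a b : ℕ) (ha : a % 2 = 1) (hb : b % 2 = 1) (haL : a ≤ L + 2)
    (hbL : b ≤ L + 2) : (gfw L R).rel a b := by
  induction L generalizing a b with
  | zero =>
    have h1 : a = 1 := by omega
    have h2 : b = 1 := by omega
    subst h1; subst h2
    exact R.eqv.refl 1
  | succ L ih =>
    show (gd (L+1) (gfw L R)).rel a b
    unfold gd
    by_cases hp : (L+1) % 2 = 1
    · rw [if_pos hp]
      refine Or.inr ⟨ha, hb, by omega, by omega, ?_⟩
      by_cases h1 : a = L + 1 + 2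
      · by_cases h2 : b = L + 1 + 2
        · left
          rw [h1, h2]
          exact (gfw L R).eqv.refl _
        · right; right
          refine ⟨?_, ih (L+1) b hp hb (by omega) (by omega)⟩
          rw [h1]
          exact (gfw L R).eqv.refl _
      · by_cases h2 : b = L + 1 + 2
        · right; left
          refine ⟨ih a (L+1) ha hp (by omega) (by omega), ?_⟩
          rw [h2]
          exact (gfw L R).eqv.refl _
        · left
          exact ih a b ha hb (by omega) (by omega)
    · rw [if_neg hp]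
      exact ih a b ha hb (by omega) (by omega)

theorem gfw_top {L : ℕ} {R : St} (hR : Bd (L+3) R) : gfw L R = top (L+2) :=
  eq_top (fun a b ha hb haL hbL => gfw_rel L R a b ha hb haL hbL) (bd_gfw L (by omega) hR)

theorem bd_top (K : ℕ) : Bd (K+1) (top K) := by
  rintro a b (h | ⟨_, _, h1, h2⟩)
  · exact Or.inl h
  · exact Or.inr ⟨by omega, by omega⟩

theorem gd_top {K i : ℕ} (hi : i + 2 ≤ K) : gd i (top K) = top K := by
  unfold gd
  split_ifs with hp
  · refine eq_top (fun a b ha hb haL hbL => ?_) (bd_act (by omega) (bd_top K))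
    exact Or.inr ⟨ha, hb, by omega, by omega, Or.inl (Or.inr ⟨ha, hb, haL, hbL⟩)⟩
  · rfl

theorem gbw_top {K : ℕ} (L : ℕ) (hL : L + 2 ≤ K) : gbw L (top K) = top K := by
  induction L with
  | zero => rfl
  | succ L ih =>
    show gbw L (gd (L+1) (top K)) = top K
    rw [gd_top hL, ih (by omega)]

theorem cap_top (L : ℕ) : St.cap 0 (top (L+2)) = top L := by
  refine eq_top (fun a b ha hb haL hbL => ?_) (bd_cap (by omega) (bd_top (L+2)))
  have e1 : St.up 0 a = a + 2 := by unfold St.up; rw [if_neg (by omega)]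
  have e2 : St.up 0 b = b + 2 := by unfold St.up; rw [if_neg (by omega)]
  show (St.act 0 (top (L+2))).rel (St.up 0 a) (St.up 0 b)
  rw [e1, e2]
  exact Or.inr ⟨by omega, by omega, by omega, by omega, Or.inl (Or.inr ⟨by omega, by omega,
    by omega, by omega⟩)⟩

theorem gTF_top {L : ℕ} {R : St} (hR : Bd (L+1) R) : gTF L R = top L := by
  unfold gTF
  rw [gfw_top (bd_ins hR), gbw_top L le_rfl, cap_top]

theorem BdV.tileF {K i : ℕ} (hi : i + 2 < K) {f : St →₀ ℂ} (hf : BdV K f) :
    BdV K (tileF i f) := by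
  unfold TW.tileF
  split_ifs with h
  · exact BdV.map hf fun _ h => bd_act (by omega) h
  · exact BdV.tile hi hf

theorem BdV.fwdF {K L : ℕ} (hi : L + 2 < K) {f : St →₀ ℂ} (hf : BdV K f) :
    BdV K (fwdF L f) := by
  induction L with
  | zero => exact hf
  | succ L ih => exact BdV.tileF hi (ih (by omega))

theorem BdV.bwdF {K L : ℕ} (hi : L + 2 < K) {f : St →₀ ℂ} (hf : BdV K f) :
    BdV K (bwdF L f) := by
  induction L generalizing f with
  | zero => exact hf
  | succ L ih => exact ih (by omega) (BdV.tileF hi hf)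

theorem BdV.TF {L : ℕ} {f : St →₀ ℂ} (hf : BdV (L+1) f) : BdV (L+1) (TF L f) :=
  BdV.map (BdV.bwdF (L := L) (by omega) (BdV.fwdF (L := L) (by omega)
    (BdV.map hf fun _ h => bd_ins h))) fun _ h => bd_cap (by omega) h

theorem mapDomain_gTF {L : ℕ} {f : St →₀ ℂ} (hf : BdV (L+1) f) :
    Finsupp.mapDomain (gTF L) f = Finsupp.single (top L) (mass f) := by
  unfold Finsupp.mapDomain mass
  rw [Finsupp.sum, Finsupp.sum, Finsupp.single_finsetSum]
  refine Finset.sum_congr rfl fun R hR => ?_
  rw [gTF_top (hf R hR)]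

theorem contractF {L : ℕ} {f : St →₀ ℂ} (hf : BdV (L+1) f) (hm : mass f = 0) :
    nrm (TF L f) ≤ (1 - (1/2)^L * (1/2)^L) * nrm f := by
  have h := (dob_TF L).dec f
  rw [mapDomain_gTF hf, hm, Finsupp.single_zero, smul_zero, sub_zero] at h
  exact h

theorem iter_boundF {L : ℕ} {f : St →₀ ℂ} (hf : BdV (L+1) f) (hm : mass f = 0)
    (M : ℕ) : nrm ((TF L)^[M] f) ≤ (1 - (1/2)^L * (1/2)^L)^M * nrm f ∧
      BdV (L+1) ((TF L)^[M] f) ∧ mass ((TF L)^[M] f) = 0 := by
  induction M with
  | zero => simp [hf, hm]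
  | succ M ih =>
    obtain ⟨h1, h2, h3⟩ := ih
    rw [Function.iterate_succ_apply']
    refine ⟨(contractF h2 h3).trans ?_, BdV.TF h2, by rw [(dob_TF L).mass, h3]⟩
    rw [pow_succ, mul_comm ((1 - (1/2)^L * (1/2)^L)^M) (1 - (1/2)^L * (1/2)^L), mul_assoc]
    exact mul_le_mul_of_nonneg_left h1 (by linarith [(dob_TF L).le])

theorem iter_addF (L M : ℕ) (f g : St →₀ ℂ) :
    (TF L)^[M] (f + g) = (TF L)^[M] f + (TF L)^[M] g := by
  induction M with
  | zero => rfl
  | succ M ih =>
    rw [Function.iterate_succ_apply', Function.iterate_succ_apply',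
      Function.iterate_succ_apply', ih, (dob_TF L).add]

/-- law of the state after `M` double rows with open first tiles -/
noncomputable def lawF (L M : ℕ) : St →₀ ℂ := (TF L)^[M] (Finsupp.single St.bot 1)

theorem lawF_tendsto (L : ℕ) (v : St →₀ ℂ) (hT : TF L v = v)
    (hs : ∀ R ∈ v.support, ∀ a b, R.rel a b → a = b ∨ (a < L + 1 ∧ b < L + 1))
    (hm : mass v ≠ 0) :
    Tendsto (fun M => nrm (lawF L M + (-1 : ℂ) • ((mass v)⁻¹ • v))) atTop (𝓝 0) := by
  set w : St →₀ ℂ := (mass v)⁻¹ • v with hw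
  have hwT : TF L w = w := by rw [hw, (dob_TF L).smul, hT]
  have hwm : mass w = 1 := by rw [hw, T24.mass_smul, inv_mul_cancel₀ hm]
  have hwB : BdV (L+1) w := BdV.smul (fun R hR => hs R hR) _
  set u : St →₀ ℂ := Finsupp.single St.bot 1 + (-1 : ℂ) • w with hu
  have huB : BdV (L+1) u := by
    refine BdV.add ?_ (hwB.smul _)
    intro R hR a b h
    have : R = St.bot := by
      have := Finsupp.support_single_subset hR
      simpa using this
    subst this
    exact Or.inl h
  have hum : mass u = 0 := by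
    rw [hu, T24.mass_add, T24.mass_smul, T24.mass_single, hwm]; ring
  have hlaw : ∀ M, lawF L M + (-1 : ℂ) • w = (TF L)^[M] u := by
    intro M
    have e : (Finsupp.single St.bot 1 : St →₀ ℂ) = u + w := by
      rw [hu]; simp
    rw [lawF, e, iter_addF, Function.iterate_fixed hwT]
    simp
  set ρ : ℝ := 1 - (1/2)^L * (1/2)^L with hρ
  have hρ0 : 0 ≤ ρ := by have := (dob_TF L).le; linarith
  have hρ1 : ρ < 1 := by
    have : (0:ℝ) < (1/2)^L * (1/2)^L := by positivity
    linarith
  have hlim : Tendsto (fun M : ℕ => ρ^M * nrm u) atTop (𝓝 0) := by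
    have := (tendsto_pow_atTop_nhds_zero_of_lt_one hρ0 hρ1).mul_const (nrm u)
    simpa using this
  refine squeeze_zero (fun _ => nrm_nonneg _) (fun M => ?_) hlim
  rw [hlaw M]
  exact (iter_boundF huB hum M).1

end Pool.Agent.H29.TW
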