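import Pool.Graph.R_seed8.H988R2.Perc.Defs
import Pool.Graph.R_seed8.H988R2.Perc.T23

/-!
Almost surely one of infinitely many disjoint finite sets of edges of bounded size is open.
-/

namespace Pool.Agent.H29.TW

open Pool.Agent.H988R2.Perc hiding X
open MeasureTheory Finset Filter Topology

theorem indep_perc : ProbabilityTheory.iIndepFun (fun (e : Edge) (ω : Conf) => ω e) perc := by
  unfold perc
  exact ProbabilityTheory.iIndepFun_infinitePi (X := fun _ b => b) (fun _ => measurable_id)

theorem perc_coord (e : Edge) (b : Bool) : perc ((fun ω : Conf => ω e) ⁻¹' {b}) = 1/2 := by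
  have := (measurePreserving_eval_infinitePi (fun _ : Edge => coin) e).measure_preimage
      (measurableSet_singleton b).nullMeasurableSet
  unfold perc
  rw [← T23.coin_singleton b, ← this]

theorem perc_all_open (S : Finset Edge) : perc {ω | ∀ e ∈ S, ω e = true} = (1/2)^S.card := by
  have h := indep_perc.measure_inter_preimage_eq_mul S (sets := fun _ => {true})
    (fun _ _ => measurableSet_singleton _)
  have e1 : {ω : Conf | ∀ e ∈ S, ω e = true} = ⋂ e ∈ S, (fun ω : Conf => ω e) ⁻¹' {true} := by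
    ext ω
    simp
  rw [e1, h]
  simp only [perc_coord]
  rw [Finset.prod_const]

/-- the sets of index below `N` all contain a closed edge -/
def FailN (R : ℕ → Finset Edge) (N : ℕ) : Set Conf := {ω | ∀ j < N, ∃ e ∈ R j, ω e = false}

theorem fail_succ (R : ℕ → Finset Edge) (hd : ∀ i j, i ≠ j → Disjoint (R i) (R j)) (N : ℕ) :
    perc (FailN R (N+1)) = perc (FailN R N) * perc {ω | ∃ e ∈ R N, ω e = false} := by
  classical
  set S : Finset Edge := (range N).biUnion R with hS
  have hdis : Disjoint S (R N) := by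
    rw [hS, Finset.disjoint_biUnion_left]
    intro i hi
    exact hd i N (by rw [mem_range] at hi; omega)
  have hi := indep_perc.indepFun_finset S (R N) hdis (fun e => measurable_pi_apply e)
  have h1 := hi.measure_inter_preimage_eq_mul
    {g : S → Bool | ∀ j < N, ∃ e : S, e.1 ∈ R j ∧ g e = false}
    {g : R N → Bool | ∃ e : R N, g e = false}
    (Set.toFinite _).measurableSet (Set.toFinite _).measurableSet
  have e1 : FailN R N = (fun (ω : Conf) (i : S) => ω i) ⁻¹'
      {g : S → Bool | ∀ j < N, ∃ e : S, e.1 ∈ R j ∧ g e = false} := by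
    ext ω
    constructor
    · intro h j hj
      obtain ⟨e, he, h2⟩ := h j hj
      exact ⟨⟨e, by rw [hS, Finset.mem_biUnion]; exact ⟨j, mem_range.2 hj, he⟩⟩, he, h2⟩
    · intro h j hj
      obtain ⟨e, he, h2⟩ := h j hj
      exact ⟨e.1, he, h2⟩
  have e2 : {ω : Conf | ∃ e ∈ R N, ω e = false} = (fun (ω : Conf) (i : R N) => ω i) ⁻¹'
      {g : R N → Bool | ∃ e : R N, g e = false} := by
    ext ω
    constructor
    · rintro ⟨e, he, h2⟩
      exact ⟨⟨e, he⟩, h2⟩
    · rintro ⟨e, h2⟩
      exact ⟨e.1, e.2, h2⟩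
  have e3 : FailN R (N+1) = FailN R N ∩ {ω : Conf | ∃ e ∈ R N, ω e = false} := by
    ext ω
    constructor
    · intro h
      exact ⟨fun j hj => h j (by omega), h N (by omega)⟩
    · rintro ⟨h1, h2⟩ j hj
      rcases Nat.lt_succ_iff_lt_or_eq.1 hj with h | h
      · exact h1 j h
      · rw [h]; exact h2
  rw [e3, e1, e2]
  exact h1

theorem meas_open (S : Finset Edge) : MeasurableSet {ω : Conf | ∀ e ∈ S, ω e = true} := by
  have e1 : {ω : Conf | ∀ e ∈ S, ω e = true} = ⋂ e ∈ S, (fun ω : Conf => ω e) ⁻¹' {true} := by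
    ext ω
    simp
  rw [e1]
  exact Finset.measurableSet_biInter _ fun e _ => (measurable_pi_apply e) (measurableSet_singleton _)

theorem real_fail_one (S : Finset Edge) : perc.real {ω | ∃ e ∈ S, ω e = false} =
    1 - (1/2 : ℝ)^S.card := by
  have e1 : {ω : Conf | ∃ e ∈ S, ω e = false} = {ω : Conf | ∀ e ∈ S, ω e = true}ᶜ := by
    ext ω
    simp only [Set.mem_compl_iff, Set.mem_ofPred_eq, not_forall, Bool.not_eq_true, exists_prop]
  rw [e1, probReal_compl_eq_one_sub (meas_open S), measureReal_def, perc_all_open]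
  simp

theorem real_failN (R : ℕ → Finset Edge) (hd : ∀ i j, i ≠ j → Disjoint (R i) (R j)) (c : ℕ)
    (hc : ∀ j, (R j).card ≤ c) (N : ℕ) : perc.real (FailN R N) ≤ (1 - (1/2 : ℝ)^c)^N := by
  induction N with
  | zero => simp
  | succ N ih =>
    have h := fail_succ R hd N
    have h2 : perc.real (FailN R (N+1)) = perc.real (FailN R N) *
        perc.real {ω | ∃ e ∈ R N, ω e = false} := by
      rw [measureReal_def, h, ENNReal.toReal_mul]; rfl
    rw [h2, real_fail_one, pow_succ]
    refine mul_le_mul ih ?_ ?_ ?_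
    · have : (1/2 : ℝ)^c ≤ (1/2 : ℝ)^(R N).card :=
        pow_le_pow_of_le_one (by norm_num) (by norm_num) (hc N)
      linarith
    · rw [← real_fail_one]; exact measureReal_nonneg
    · apply pow_nonneg
      have : (1/2 : ℝ)^c ≤ 1 := pow_le_one₀ (by norm_num) (by norm_num)
      linarith

/-- almost surely one of the sets is open -/
theorem fail_zero (R : ℕ → Finset Edge) (hd : ∀ i j, i ≠ j → Disjoint (R i) (R j)) (c : ℕ)
    (hc : ∀ j, (R j).card ≤ c) : perc.real {ω | ∀ j, ∃ e ∈ R j, ω e = false} = 0 := by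
  have h1 : ∀ N, perc.real {ω | ∀ j, ∃ e ∈ R j, ω e = false} ≤ (1 - (1/2 : ℝ)^c)^N := fun N =>
    (measureReal_mono (show {ω | ∀ j, ∃ e ∈ R j, ω e = false} ⊆ FailN R N from
      fun ω h j _ => h j)).trans (real_failN R hd c hc N)
  have h2 : Tendsto (fun N : ℕ => (1 - (1/2 : ℝ)^c)^N) atTop (𝓝 0) := by
    apply tendsto_pow_atTop_nhds_zero_of_lt_one
    · have : (1/2 : ℝ)^c ≤ 1 := pow_le_one₀ (by norm_num) (by norm_num)
      linarith
    · have : (0:ℝ) < (1/2 : ℝ)^c := by positivity
      linarith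
  exact le_antisymm (ge_of_tendsto' h2 h1) measureReal_nonneg

end Pool.Agent.H29.TW
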