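import Pool.Agent.H29.TW.Perc
import Pool.Agent.H29.TW.Fail
import Pool.Graph.R_seed8.H981R2.TP.Plane

/-!
The event with the open edges between the columns `0` and `1` is almost surely the event that the
tip is joined to one of the two walls.
-/

namespace Pool.Agent.H29.TW

open Pool.Agent.H988R2.Perc hiding X
open Pool.Agent.H981R2.TP
open MeasureTheory Finset Filter Topology

theorem opn_false (ω : Conf) (u v : ℤ) : opn ω (u, v, false) = if u = v then true else ω (u, v, false) := by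
  unfold opn
  by_cases h : u = v
  · rw [if_pos h, if_pos (Or.inl ⟨h, rfl⟩)]
  · rw [if_neg h, if_neg]
    rintro (⟨h1, _⟩ | ⟨_, h2⟩)
    · exact h h1
    · simp at h2

theorem opn_true (ω : Conf) (u v : ℤ) : opn ω (u, v, true) = if u = v + 1 then true else ω (u, v, true) := by
  unfold opn
  by_cases h : u = v + 1
  · rw [if_pos h, if_pos (Or.inr ⟨h, rfl⟩)]
  · rw [if_neg h, if_neg]
    rintro (⟨_, h2⟩ | ⟨h1, _⟩)
    · simp at h2
    · exact h h1

theorem opn_of (ω : Conf) {x y : ℤ × ℤ} (h : OpenAdj ω x y) : OpenAdj (opn ω) x y := by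
  rcases h with ⟨h1, h2⟩ | ⟨h1, h2⟩ | ⟨h1, h2⟩ | ⟨h1, h2⟩
  · refine Or.inl ⟨h1, ?_⟩; rw [opn_false, h2]; simp
  · refine Or.inr (Or.inl ⟨h1, ?_⟩); rw [opn_false, h2]; simp
  · refine Or.inr (Or.inr (Or.inl ⟨h1, ?_⟩)); rw [opn_true, h2]; simp
  · refine Or.inr (Or.inr (Or.inr ⟨h1, ?_⟩)); rw [opn_true, h2]; simp

theorem of_opn (ω : Conf) {x y : ℤ × ℤ} (h : OpenAdj (opn ω) x y) (hx : 1 ≤ x.1 - x.2)
    (hy : 1 ≤ y.1 - y.2) : OpenAdj ω x y := by
  rcases h with ⟨h1, h2⟩ | ⟨h1, h2⟩ | ⟨h1, h2⟩ | ⟨h1, h2⟩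
  · refine Or.inl ⟨h1, ?_⟩; rwa [opn_false, if_neg (by omega)] at h2
  · refine Or.inr (Or.inl ⟨h1, ?_⟩); rwa [opn_false, if_neg (by omega)] at h2
  · refine Or.inr (Or.inr (Or.inl ⟨h1, ?_⟩))
    rw [h1] at hy
    simp only at hy
    rwa [opn_true, if_neg (by omega)] at h2
  · refine Or.inr (Or.inr (Or.inr ⟨h1, ?_⟩))
    rw [h1] at hx
    simp only at hx
    rwa [opn_true, if_neg (by omega)] at h2

/-- adjacency in the slit strip without the column `0` -/
def HAdj (a b : ℕ) (ω : Conf) (x y : ℤ × ℤ) : Prop :=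
  TipAdj a b ω x y ∧ 1 ≤ x.1 - x.2 ∧ 1 ≤ y.1 - y.2

/-- the tip is joined to the column `1` or to the last column inside the slit strip -/
def HitT (a b : ℕ) : Set Conf :=
  {ω | ∃ y : ℤ × ℤ, (y.1 - y.2 = 1 ∨ y.1 - y.2 = a + b + 2) ∧
    Relation.ReflTransGen (HAdj a b ω) (tip a) y}

theorem armF_sub (a b : ℕ) : ArmF a b ⊆ HitT a b := by
  rintro ω ⟨y, hy, hr⟩
  have key : ∀ z, Relation.ReflTransGen (TipAdj a b (opn ω)) (tip a) z →
      (Relation.ReflTransGen (HAdj a b ω) (tip a) z ∧ 1 ≤ z.1 - z.2) ∨ ω ∈ HitT a b := by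
    intro z hz
    induction hz with
    | refl =>
      left
      refine ⟨Relation.ReflTransGen.refl, ?_⟩
      simp only [tip]
      omega
    | @tail s t h1 h2 ih =>
      rcases ih with ⟨i1, i2⟩ | i3
      · by_cases hs : s.1 - s.2 = 1
        · right
          exact ⟨s, Or.inl hs, i1⟩
        · left
          have hc := PL.col_step h2.1
          have ht : 1 ≤ t.1 - t.2 := by omega
          refine ⟨i1.tail ⟨⟨of_opn ω h2.1 i2 ht, h2.2⟩, i2, ht⟩, ht⟩
      · right; exact i3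
  rcases key y hr with ⟨h, _⟩ | h
  · exact ⟨y, Or.inr hy, h⟩
  · exact h

/-- the row of edges from the column `1` to the column `L` at the ordinate `v` -/
def row (L : ℕ) (v : ℤ) : Finset Edge := (range (L-1)).image fun i : ℕ => (v + 1 + (i:ℤ), v, false)

theorem row_card (L : ℕ) (v : ℤ) : (row L v).card ≤ L - 1 := by
  unfold row
  exact Finset.card_image_le.trans (by simp)

theorem row_disj (L : ℕ) {v v' : ℤ} (h : v ≠ v') : Disjoint (row L v) (row L v') := by
  rw [Finset.disjoint_left]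
  intro e he he'
  unfold row at he he'
  rw [Finset.mem_image] at he he'
  obtain ⟨i, _, hi⟩ := he
  obtain ⟨j, _, hj⟩ := he'
  rw [← hj] at hi
  simp only [Prod.mk.injEq] at hi
  exact h hi.2.1

/-- no row below the tip is open -/
def Bad (L : ℕ) : Set Conf := {ω | ∀ j : ℕ, ∃ e ∈ row L (-(L:ℤ) - j), ω e = false}

theorem bad_zero (L : ℕ) : perc.real (Bad L) = 0 :=
  fail_zero (fun j : ℕ => row L (-(L:ℤ) - j)) (fun i j hij => row_disj L (by omega)) (L-1)
    (fun j => row_card L _)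

theorem TipAdj_symm {a b : ℕ} {ω : Conf} {x y : ℤ × ℤ} (h : TipAdj a b ω x y) : TipAdj a b ω y x := by
  obtain ⟨h1, h2, h3, h4⟩ := h
  exact ⟨T22.openAdj_symm h1, h3, h2, fun h => h4 ⟨h.2.1, h.1, h.2.2.symm⟩⟩

theorem rtg_symm {R : ℤ × ℤ → ℤ × ℤ → Prop} (hR : ∀ x y, R x y → R y x) {x y : ℤ × ℤ}
    (h : Relation.ReflTransGen R x y) : Relation.ReflTransGen R y x := by
  induction h with
  | refl => exact Relation.ReflTransGen.refl
  | tail _ h2 ih => exact Relation.ReflTransGen.head (hR _ _ h2) ih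

/-- the column `1` is wired through the column `0` -/
theorem wired_step {a b : ℕ} (ha : 1 ≤ a) (ω : Conf) (v : ℤ) :
    Relation.ReflTransGen (TipAdj a b (opn ω)) (v + 1, v) (v + 1 + 1, v + 1) := by
  have s1 : TipAdj a b (opn ω) (v + 1, v) (v + 1, v + 1) := by
    refine ⟨Or.inr (Or.inr (Or.inl ⟨rfl, ?_⟩)), ?_, ?_, ?_⟩
    · show opn ω (v+1, v, true) = true
      rw [opn_true, if_pos rfl]
    · simp only; omega
    · simp only; omega
    · rintro ⟨_, _, h3 | h3⟩ <;> simp only at h3 <;> omega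
  have s2 : TipAdj a b (opn ω) (v + 1, v + 1) (v + 1 + 1, v + 1) := by
    refine ⟨Or.inl ⟨rfl, ?_⟩, ?_, ?_, ?_⟩
    · show opn ω (v+1, v+1, false) = true
      rw [opn_false, if_pos rfl]
    · simp only; omega
    · simp only; omega
    · rintro ⟨_, _, h3 | h3⟩ <;> simp only at h3 <;> omega
  exact (Relation.ReflTransGen.single s1).tail s2

theorem wired_up {a b : ℕ} (ha : 1 ≤ a) (ω : Conf) (v : ℤ) (n : ℕ) :
    Relation.ReflTransGen (TipAdj a b (opn ω)) (v + 1, v) (v + n + 1, v + n) := by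
  induction n with
  | zero => simpa using Relation.ReflTransGen.refl
  | succ n ih =>
    refine ih.trans ?_
    have := wired_step (b := b) ha ω (v + n)
    push_cast
    rwa [← add_assoc]

theorem wired {a b : ℕ} (ha : 1 ≤ a) (ω : Conf) (v w : ℤ) :
    Relation.ReflTransGen (TipAdj a b (opn ω)) (v + 1, v) (w + 1, w) := by
  rcases le_total v w with h | h
  · obtain ⟨n, rfl⟩ : ∃ n : ℕ, w = v + n := ⟨(w - v).toNat, by omega⟩
    exact wired_up ha ω v n
  · obtain ⟨n, rfl⟩ : ∃ n : ℕ, v = w + n := ⟨(v - w).toNat, by omega⟩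
    exact rtg_symm (fun _ _ h => TipAdj_symm h) (wired_up ha ω w n)

theorem row_path {a b : ℕ} {ω : Conf} {v : ℤ} (hv : v ≤ -((a + b + 2 : ℕ) : ℤ))
    (h : ∀ e ∈ row (a+b+2) v, ω e = true) (i : ℕ) (hi : i ≤ a + b + 1) :
    Relation.ReflTransGen (TipAdj a b (opn ω)) (v + 1, v) (v + 1 + i, v) := by
  induction i with
  | zero => simpa using Relation.ReflTransGen.refl
  | succ i ih =>
    refine (ih (by omega)).tail ?_
    refine ⟨opn_of ω (Or.inl ⟨Prod.ext (by push_cast; ring) rfl, ?_⟩), ?_, ?_, ?_⟩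
    · apply h
      unfold row
      rw [Finset.mem_image]
      exact ⟨i, mem_range.2 (by omega), rfl⟩
    · simp only; push_cast at *; omega
    · simp only; push_cast at *; omega
    · rintro ⟨h1, _, _⟩
      simp only at h1
      push_cast at *
      omega

theorem hit_sub {a b : ℕ} (ha : 1 ≤ a) : HitT a b ⊆ ArmF a b ∪ Bad (a+b+2) := by
  rintro ω ⟨y, hy, hr⟩
  have hr' : Relation.ReflTransGen (TipAdj a b (opn ω)) (tip a) y :=
    PL.rtg_mono (fun p r h => ⟨opn_of ω h.1.1, h.1.2⟩) hr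
  rcases hy with hy | hy
  · by_cases hB : ω ∈ Bad (a+b+2)
    · exact Or.inr hB
    · left
      unfold Bad at hB
      rw [Set.mem_ofPred_eq] at hB
      push Not at hB
      obtain ⟨j, hj⟩ := hB
      have hj' : ∀ e ∈ row (a+b+2) (-((a+b+2 : ℕ):ℤ) - j), ω e = true := fun e he => by
        have := hj e he
        simpa using this
      have hp := row_path (a := a) (b := b) (v := -((a+b+2 : ℕ):ℤ) - j) (by omega) hj' (a+b+1) le_rfl
      have hw := wired (b := b) ha ω y.2 (-((a+b+2 : ℕ):ℤ) - j)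
      have ey : y = (y.2 + 1, y.2) := by
        ext
        · simp only; omega
        · rfl
      rw [← ey] at hw
      refine ⟨_, ?_, (hr'.trans hw).trans hp⟩
      simp only
      push_cast
      ring
  · exact Or.inl ⟨y, hy, hr'⟩

theorem hit_real {a b : ℕ} (ha : 1 ≤ a) : perc.real (HitT a b) = perc.real (ArmF a b) := by
  apply le_antisymm
  · calc perc.real (HitT a b) ≤ perc.real (ArmF a b ∪ Bad (a+b+2)) := measureReal_mono (hit_sub ha)
      _ ≤ perc.real (ArmF a b) + perc.real (Bad (a+b+2)) := measureReal_union_le _ _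
      _ = perc.real (ArmF a b) := by rw [bad_zero, add_zero]
  · exact measureReal_mono (armF_sub a b)

theorem hitT_exact (m k : ℕ) : perc.real (HitT (2*m+2) (2*k+1)) = hitFormula (2*m+2) (2*k+1) := by
  rw [hit_real (by omega), armF_exact]

end Pool.Agent.H29.TW
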