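import Pool.Agent.H29.TW.Conv
import Pool.Graph.R_seed8.H988R2.Perc.T23

/-! The slit tip and the two walls: the law of the states as an average over the bits. -/

namespace Pool.Agent.H29.TW

open Pool.Agent.H988R2.Perc hiding X
open Pool.Agent.H988R2.Perc.T23
open Finset

/-- the bits of the tiles `1` are set to `true` -/
def force (o : ℕ → ℕ → Bool) (k i : ℕ) : Bool := if i = 1 then true else o k i

theorem actBit_force_insert (t : Finset (ℕ × ℕ)) (k i i' : ℕ) (h : i ≠ i') :
    actBit (force (bits (insert (k, i') t))) k i = actBit (force (bits t)) k i := by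
  simp [actBit, force, bits_insert t k i i' h]

theorem tileF_single_sum {ι : Type*} (P : Finset ι) (R : ι → St) :
    tileF 1 (∑ t ∈ P, Finsupp.single (R t) (1:ℂ)) =
      ∑ t ∈ P, Finsupp.single (St.act 1 (R t)) 1 := by
  unfold tileF
  rw [if_pos rfl, Finsupp.mapDomain_finsetSum]
  simp only [Finsupp.mapDomain_single]

/-- one tile doubles the sum -/
theorem tileF_step (S : Finset (ℕ × ℕ)) (k i : ℕ) (hS : (k, i) ∉ S)
    (Y : Finset (ℕ × ℕ) → St) (hY : ∀ t, Y (insert (k, i) t) = Y t) :
    tileF i (∑ t ∈ S.powerset, Finsupp.single (Y t) (1:ℂ)) =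
      (1/2 : ℂ) • ∑ t ∈ (insert (k, i) S).powerset,
        Finsupp.single (if actBit (force (bits t)) k i then St.act i (Y t) else Y t) (1:ℂ) := by
  by_cases h1 : i = 1
  · subst h1
    rw [tileF_single_sum, Finset.sum_powerset_insert hS, ← Finset.sum_add_distrib,
      Finset.smul_sum]
    refine Finset.sum_congr rfl fun t ht => ?_
    rw [hY]
    have e : ∀ o : ℕ → ℕ → Bool, actBit (force o) k 1 = true := by
      intro o; simp [actBit, force]
    rw [e, e, if_pos rfl, ← two_smul ℂ, smul_smul]
    norm_num
  · have h2 := tile_step S k i hS Y hY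
    unfold tileF
    rw [if_neg h1, h2]
    congr 1
    refine Finset.sum_congr rfl fun t ht => ?_
    have e : actBit (force (bits t)) k i = actBit (bits t) k i := by
      simp [actBit, force, h1]
    rw [e]

theorem fwdF_step (n : ℕ) (S : Finset (ℕ × ℕ)) (k : ℕ) (hS : ∀ i, 1 ≤ i → i ≤ n → (k, i) ∉ S)
    (Y : Finset (ℕ × ℕ) → St) (hY : ∀ i t, 1 ≤ i → i ≤ n → Y (insert (k, i) t) = Y t) :
    fwdF n (∑ t ∈ S.powerset, Finsupp.single (Y t) (1:ℂ)) =
      ((1/2 : ℂ))^n • ∑ t ∈ (S ∪ row k n).powerset,
        Finsupp.single (fwdS n (actBit (force (bits t)) k) (Y t)) (1:ℂ) := by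
  induction n with
  | zero =>
    have : S ∪ row k 0 = S := by
      ext j; simp only [mem_union, mem_row]; constructor
      · rintro (h | h)
        · exact h
        · omega
      · exact Or.inl
    simp [fwdF, fwdS, this]
  | succ n ih =>
    simp only [fwdF]
    rw [ih (fun i h1 h2 => hS i h1 (by omega)) (fun i t h1 h2 => hY i t h1 (by omega)),
      tileF_smul, row_succ]
    have hn : (k, n+1) ∉ S ∪ row k n := by
      simp only [mem_union, mem_row, not_or]
      exact ⟨hS (n+1) (by omega) le_rfl, by omega⟩
    rw [tileF_step (S ∪ row k n) k (n+1) hn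
      (fun t => fwdS n (actBit (force (bits t)) k) (Y t)) (by
        intro t
        rw [hY (n+1) t (by omega) le_rfl]
        exact fwdS_congr n _ _ _ (fun i _ h2 => actBit_force_insert t k i (n+1) (by omega)))]
    rw [smul_smul, pow_succ]
    rfl

theorem bwdF_step (n : ℕ) (S : Finset (ℕ × ℕ)) (k : ℕ) (hS : ∀ i, 1 ≤ i → i ≤ n → (k, i) ∉ S)
    (Y : Finset (ℕ × ℕ) → St) (hY : ∀ i t, 1 ≤ i → i ≤ n → Y (insert (k, i) t) = Y t) :
    bwdF n (∑ t ∈ S.powerset, Finsupp.single (Y t) (1:ℂ)) =
      ((1/2 : ℂ))^n • ∑ t ∈ (S ∪ row k n).powerset,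
        Finsupp.single (bwdS n (actBit (force (bits t)) k) (Y t)) (1:ℂ) := by
  induction n generalizing S Y with
  | zero =>
    have : S ∪ row k 0 = S := by
      ext j; simp only [mem_union, mem_row]; constructor
      · rintro (h | h)
        · exact h
        · omega
      · exact Or.inl
    simp [bwdF, bwdS, this]
  | succ n ih =>
    simp only [bwdF]
    rw [tileF_step S k (n+1) (hS (n+1) (by omega) le_rfl) Y
      (fun t => hY (n+1) t (by omega) le_rfl), bwdF_smul]
    rw [ih (insert (k, n+1) S) ?_
      (fun t => if actBit (force (bits t)) k (n+1) then St.act (n+1) (Y t) else Y t) ?_]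
    · rw [smul_smul, row_succ', pow_succ']
      rfl
    · intro i h1 h2 h
      rw [mem_insert] at h
      rcases h with h | h
      · simp only [Prod.mk.injEq] at h; omega
      · exact hS i h1 (by omega) h
    · intro i t h1 h2
      rw [hY i t h1 (by omega), actBit_force_insert t k (n+1) i (by omega)]

theorem lawF_eq (L M : ℕ) : lawF L M =
    ((1/2 : ℂ))^(2*M*L) • ∑ t ∈ (SS L M).powerset,
      Finsupp.single (Pool.Agent.H988R2.Perc.X L (actBit (force (bits t))) M) (1:ℂ) := by
  induction M with
  | zero =>
    have : SS L 0 = ∅ := by simp [SS]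
    simp [lawF, this, Pool.Agent.H988R2.Perc.X]
  | succ M ih =>
    have h1 : lawF L (M+1) = TF L (lawF L M) := by
      unfold lawF; rw [Function.iterate_succ_apply']
    rw [h1, ih]
    unfold TF
    rw [Finsupp.mapDomain_smul, mapDomain_sum_single, fwdF_smul,
      fwdF_step L (SS L M) (2*M) (fun i _ _ h => by rw [mem_SS] at h; simp at h)
        (fun t => St.ins 0 (Pool.Agent.H988R2.Perc.X L (actBit (force (bits t))) M)) ?_,
      bwdF_smul, bwdF_smul,
      bwdF_step L (SS L M ∪ row (2*M) L) (2*M+1)
        (fun i _ _ h => by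
          rw [mem_union, mem_SS, mem_row] at h
          simp only at h
          omega)
        (fun t => fwdS L (actBit (force (bits t)) (2*M))
          (St.ins 0 (Pool.Agent.H988R2.Perc.X L (actBit (force (bits t))) M))) ?_,
      Finsupp.mapDomain_smul, Finsupp.mapDomain_smul, Finsupp.mapDomain_smul,
      mapDomain_sum_single, ← SS_succ, smul_smul, smul_smul]
    · congr 1
      rw [← pow_add, ← pow_add]
      congr 1
      ring
    · intro i t _ _
      have e1 : ∀ k i', k ≠ 2*M+1 → actBit (force (bits (insert (2*M+1, i) t))) k i' =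
          actBit (force (bits t)) k i' := by
        intro k i' hk
        simp [actBit, force, bits, hk]
      rw [X_congr L _ (actBit (force (bits t))) M (fun k i' hk _ _ => e1 k i' (by omega)),
        fwdS_congr L _ (actBit (force (bits t)) (2*M)) _ (fun i' _ _ => e1 _ i' (by omega))]
    · intro i t _ _
      have e1 : ∀ k i', k ≠ 2*M → actBit (force (bits (insert (2*M, i) t))) k i' =
          actBit (force (bits t)) k i' := by
        intro k i' hk
        simp [actBit, force, bits, hk]
      rw [X_congr L _ (actBit (force (bits t))) M (fun k i' hk _ _ => e1 k i' (by omega))]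

end Pool.Agent.H29.TW
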