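import Pool.Agent.H29.TW.Alg
import Pool.Graph.R_seed8.H988R2.Perc.T20

/-! The slit tip and the two walls: stationarity under the double row with the first tile open. -/

namespace Pool.Agent.H29.TW

open Pool.Agent.H988R2.Perc hiding X
open Pool.Agent.H988R2.Perc.T20 (move_right move_left)
open Finset Polynomial

/-- one tile; the tile `1` is open -/
noncomputable def tileF (i : ℕ) (f : St →₀ ℂ) : St →₀ ℂ :=
  if i = 1 then Finsupp.mapDomain (St.act 1) f else tile i f

noncomputable def fwdF : ℕ → (St →₀ ℂ) → (St →₀ ℂ)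
  | 0, f => f
  | L+1, f => tileF (L+1) (fwdF L f)

noncomputable def bwdF : ℕ → (St →₀ ℂ) → (St →₀ ℂ)
  | 0, f => f
  | L+1, f => bwdF L (tileF (L+1) f)

/-- the double-row transfer matrix with open first tiles -/
noncomputable def TF (L : ℕ) (f : St →₀ ℂ) : St →₀ ℂ :=
  Finsupp.mapDomain (St.cap 0) (bwdF L (fwdF L (Finsupp.mapDomain (St.ins 0) f)))

theorem tileF_smul (i : ℕ) (c : ℂ) (f : St →₀ ℂ) : tileF i (c • f) = c • tileF i f := by
  unfold tileF
  split_ifs
  · exact Finsupp.mapDomain_smul c f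
  · exact T20.tile_smul i c f

theorem fwdF_smul (L : ℕ) (c : ℂ) (f : St →₀ ℂ) : fwdF L (c • f) = c • fwdF L f := by
  induction L with
  | zero => rfl
  | succ L ih => simp only [fwdF]; rw [ih, tileF_smul]

theorem bwdF_smul (L : ℕ) (c : ℂ) (f : St →₀ ℂ) : bwdF L (c • f) = c • bwdF L f := by
  induction L generalizing f with
  | zero => rfl
  | succ L ih => simp only [bwdF]; rw [tileF_smul, ih]

/-- inversion of the second variable if the first one is `0` -/
theorem Psi_invL (x : ℂ) (l : List ℂ) (hx : x ≠ 0) (h : Even l.length) :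
    Psi (0 :: x :: l) = x^(l.length) • Psi (0 :: x⁻¹ :: l) := by
  set e : (St →₀ ℂ) → (St →₀ ℂ) := Finsupp.mapDomain (St.act 0) with he
  have hsmul : ∀ (c : ℂ) f, e (c • f) = c • e f := fun c f => Finsupp.mapDomain_smul c f
  have hexch : ∀ x : ℂ, x ≠ 0 → Psi (0 :: x :: l) =
      (-q) • Psi (x :: 0 :: l) + (-q^2) • e (Psi (x :: 0 :: l)) := by
    intro x hx
    have h1 := Psi_exch [] l x 0 (by simpa using h)
    simp only [List.nil_append, List.length_nil] at h1
    have h2 : (q * x) • Psi (0 :: x :: l) = (q * x) • ((-q) • Psi (x :: 0 :: l) +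
        (-q^2) • e (Psi (x :: 0 :: l))) := by
      have h3 : (q * x - q^2 * 0) = q * x := by ring
      rw [h3] at h1
      rw [h1, smul_add, smul_smul, smul_smul]
      congr 2
      · ring
      · linear_combination (-x) * q_cube * (-1)
    exact smul_right_injective _ (mul_ne_zero q_ne_zero hx) h2
  have hinv := Psi_inv1 x (0 :: l) hx (by simpa using h.add_one)
  simp only [List.length_cons, Nat.add_sub_cancel] at hinv
  rw [hexch x hx, hexch x⁻¹ (inv_ne_zero hx), hinv, hsmul, smul_add, smul_smul, smul_smul,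
    smul_smul, smul_smul]
  congr 2 <;> ring

theorem fac_ne_ones (k : ℕ) (T : List ℂ) (hT : T = [] ∨ T = [0]) :
    fac (-q^2) (0 :: (List.replicate k 1 ++ T)) ≠ 0 := by
  have h4 := T20.q4
  have hq := q_ne_zero
  have h0 : (-q^2 - q^2 * 0) * (-q^2 * 0 - q^2) ≠ 0 := by
    have : (-q^2 - q^2 * 0) * (-q^2 * 0 - q^2) = q := by linear_combination h4
    rw [this]
    exact hq
  unfold fac
  rw [List.map_cons, List.prod_cons]
  refine mul_ne_zero h0 ?_
  rw [List.map_append, List.prod_append, List.map_replicate, List.prod_replicate]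
  refine mul_ne_zero (pow_ne_zero _ ?_) ?_
  · have : (-q^2 - q^2 * 1) * (-q^2 * 1 - q^2) = 4 * q := by
      linear_combination 4 * h4
    rw [this]
    exact mul_ne_zero (by norm_num) hq
  · rcases hT with rfl | rfl
    · simp
    · rw [List.map_singleton, List.prod_singleton]
      exact h0

theorem fwd_eqF (k : ℕ) (T : List ℂ) (hpar : Even (k + 1 + T.length)) (j : ℕ) (hj : j ≤ k)
    (v : St →₀ ℂ) (hv : Finsupp.mapDomain (St.act 1) v =
      Psi (0 :: (-q^2) :: (-q) :: (List.replicate k 1 ++ T))) :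
    fwdF (j+1) v = Psi ((0 :: (-q^2) :: List.replicate j 1) ++
      (-q) :: (List.replicate (k-j) 1 ++ T)) := by
  induction j with
  | zero =>
    simp only [fwdF, tileF, zero_add, if_true]
    rw [hv]
    rfl
  | succ j ih =>
    have ih' := ih (by omega)
    show tileF (j+1+1) (fwdF (j+1) v) = _
    rw [ih']
    obtain ⟨m, hm⟩ : ∃ m, k - j = m + 1 := ⟨k - j - 1, by omega⟩
    have hm' : k - (j+1) = m := by omega
    rw [hm, hm']
    have hu : (0 :: (-q^2) :: List.replicate j (1:ℂ)).length = j + 2 := by simp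
    have key := move_right (0 :: (-q^2) :: List.replicate j (1:ℂ)) (List.replicate m 1 ++ T) (by
      simp only [List.length_cons, List.length_replicate, List.length_append]
      obtain ⟨t, ht⟩ := hpar
      exact ⟨t, by omega⟩)
    rw [hu] at key
    have e1 : (0 :: (-q^2) :: List.replicate (j+1) (1:ℂ)) ++ (-q) :: (List.replicate m 1 ++ T)
        = (0 :: (-q^2) :: List.replicate j (1:ℂ)) ++ 1 :: (-q) :: (List.replicate m 1 ++ T) := by
      rw [List.replicate_succ']; simp
    have e2 : (0 :: (-q^2) :: List.replicate j (1:ℂ)) ++ (-q) :: (List.replicate (m+1) 1 ++ T)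
        = (0 :: (-q^2) :: List.replicate j (1:ℂ)) ++ (-q) :: 1 :: (List.replicate m 1 ++ T) := by
      rw [List.replicate_succ]; simp
    rw [e1, e2, key]
    unfold tileF
    rw [if_neg (by omega)]

theorem bwd_eqF (k : ℕ) (T : List ℂ) (hpar : Even (k + 1 + T.length)) (j : ℕ) (hj : j ≤ k) :
    bwdF (j+1) (Psi ((0 :: (-q^2) :: List.replicate j 1) ++
      (-q^2) :: (List.replicate (k-j) 1 ++ T))) =
      Finsupp.mapDomain (St.act 1)
        (Psi (0 :: (-q^2) :: (-q^2) :: (List.replicate k 1 ++ T))) := by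
  induction j with
  | zero =>
    simp only [bwdF, tileF, zero_add, if_true]
    rfl
  | succ j ih =>
    have ih' := ih (by omega)
    show bwdF (j+1) (tileF (j+1+1) _) = _
    rw [← ih']
    congr 1
    obtain ⟨m, hm⟩ : ∃ m, k - j = m + 1 := ⟨k - j - 1, by omega⟩
    have hm' : k - (j+1) = m := by omega
    rw [hm, hm']
    have hu : (0 :: (-q^2) :: List.replicate j (1:ℂ)).length = j + 2 := by simp
    have key := move_left (0 :: (-q^2) :: List.replicate j (1:ℂ)) (List.replicate m 1 ++ T) (by
      simp only [List.length_cons, List.length_replicate, List.length_append]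
      obtain ⟨t, ht⟩ := hpar
      exact ⟨t, by omega⟩)
    rw [hu] at key
    have e1 : (0 :: (-q^2) :: List.replicate (j+1) (1:ℂ)) ++ (-q^2) :: (List.replicate m 1 ++ T)
        = (0 :: (-q^2) :: List.replicate j (1:ℂ)) ++ 1 :: (-q^2) :: (List.replicate m 1 ++ T) := by
      rw [List.replicate_succ']; simp
    have e2 : (0 :: (-q^2) :: List.replicate j (1:ℂ)) ++ (-q^2) :: (List.replicate (m+1) 1 ++ T)
        = (0 :: (-q^2) :: List.replicate j (1:ℂ)) ++ (-q^2) :: 1 :: (List.replicate m 1 ++ T) := by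
      rw [List.replicate_succ]; simp
    rw [e1, e2, key]
    unfold tileF
    rw [if_neg (by omega)]

theorem inv_negq : (-q)⁻¹ = -q^2 := by
  rw [inv_eq_iff_eq_inv]
  have : (-q^2) ≠ 0 := neg_ne_zero.mpr (pow_ne_zero _ q_ne_zero)
  apply mul_right_cancel₀ this
  rw [inv_mul_cancel₀ this]
  linear_combination q_cube

theorem inv_negq2 : (-q^2)⁻¹ = -q := by
  rw [inv_eq_iff_eq_inv, inv_negq]

theorem stat (k : ℕ) (T : List ℂ) (hT : T = [] ∨ T = [0]) (hpar : Even (k + 1 + T.length))
    (hinv : Psi ((0 :: (-q^2) :: List.replicate k 1) ++ (-q) :: T) =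
      (-q)^(k + 1 + T.length) • Psi ((0 :: (-q^2) :: List.replicate k 1) ++ (-q^2) :: T)) :
    TF (k+1) (Psi (0 :: (List.replicate k 1 ++ T))) = Psi (0 :: (List.replicate k 1 ++ T)) := by
  set v0 := Psi (0 :: (List.replicate k 1 ++ T)) with hv0
  set l0 : List ℂ := List.replicate k 1 ++ T with hl0
  have hlen : l0.length = k + T.length := by simp [hl0]
  have h4 := T20.q4
  have h3 := q_cube
  have hqs := q_spec
  have hq := q_ne_zero
  have hparl : Even (([0] : List ℂ).length + l0.length) := by
    rw [hlen, List.length_singleton]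
    convert hpar using 1
    ring
  -- recursion at the start
  have hrec : Psi (0 :: (-q^2) :: (-q) :: l0) =
      fac (-q^2) (0 :: l0) • Finsupp.mapDomain (St.ins 1) v0 := by
    have := Psi_rec [0] l0 (-q^2) hparl
    have e : q^2 * (-q^2) = -q := by linear_combination -h4
    rw [e] at this
    simpa using this
  have hins : Finsupp.mapDomain (St.act 1) (Finsupp.mapDomain (St.ins 0) v0) =
      Finsupp.mapDomain (St.ins 1) v0 := by
    rw [← Finsupp.mapDomain_comp]
    congr 1
    funext R
    exact St.act_succ_ins 0 R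
  -- forward
  have hf := fwd_eqF k T hpar k le_rfl (fac (-q^2) (0 :: l0) • Finsupp.mapDomain (St.ins 0) v0) (by
    rw [Finsupp.mapDomain_smul, hins, ← hrec])
  rw [Nat.sub_self, List.replicate_zero, List.nil_append, hinv] at hf
  have hb := bwd_eqF k T hpar k le_rfl
  rw [Nat.sub_self, List.replicate_zero, List.nil_append] at hb
  -- inversion at the left wall
  have hinvL : Psi (0 :: (-q^2) :: (-q^2) :: l0) =
      (-q^2)^(k + 1 + T.length) • Psi (0 :: (-q) :: (-q^2) :: l0) := by
    have := Psi_invL (-q^2) ((-q^2) :: l0) (neg_ne_zero.mpr (pow_ne_zero _ hq)) (by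
      rw [List.length_cons, hlen]
      convert hpar using 1
      ring)
    rw [inv_negq2, List.length_cons, hlen] at this
    rw [this]
    congr 2
    ring
  -- exchange
  have hexch : Psi (0 :: (-q^2) :: (-q) :: l0) =
      Finsupp.mapDomain (St.act 1) (Psi (0 :: (-q) :: (-q^2) :: l0)) := by
    have := Psi_exch [0] l0 (-q) (-q^2) hparl
    have e1 : q * (-q) - q^2 * (-q^2) = -q^2 + q := by linear_combination h4
    have e2 : q * (-q^2) - q^2 * (-q) = 0 := by ring
    have e3 : (-q^2) - (-q) = -q^2 + q := by ring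
    rw [e1, e2, e3, zero_smul, zero_add] at this
    have hne : -q^2 + q ≠ 0 := by
      intro h
      have h1 : q * (1 - q) = 0 := by linear_combination h
      rcases mul_eq_zero.mp h1 with h2 | h2
      · exact hq h2
      · exact q_ne_one (by linear_combination -h2)
    have h5 := congrArg (fun f => (-q^2 + q)⁻¹ • f) this
    simp only [smul_smul, inv_mul_cancel₀ hne, one_smul] at h5
    simpa using h5
  have hcap : Finsupp.mapDomain (St.cap 0) (Finsupp.mapDomain (St.ins 1) v0) = v0 := by
    rw [← Finsupp.mapDomain_comp]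
    have : St.cap 0 ∘ St.ins 1 = id := by
      funext R
      apply St.ins_inj 0
      show St.ins 0 (St.cap 0 (St.ins 1 R)) = St.ins 0 R
      rw [← St.act_eq, St.act_ins_succ 0 R]
    rw [this, Finsupp.mapDomain_id]
  -- conclusion
  have hmain : fac (-q^2) (0 :: l0) • TF (k+1) v0 = fac (-q^2) (0 :: l0) • v0 := by
    have h1 : fac (-q^2) (0 :: l0) • TF (k+1) v0 =
        Finsupp.mapDomain (St.cap 0) (bwdF (k+1) (fwdF (k+1)
          (fac (-q^2) (0 :: l0) • Finsupp.mapDomain (St.ins 0) v0))) := by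
      unfold TF
      rw [fwdF_smul, bwdF_smul, Finsupp.mapDomain_smul]
    have h2 : Finsupp.mapDomain (St.act 1)
        ((-q^2)^(k + 1 + T.length) • Psi (0 :: (-q) :: (-q^2) :: l0)) =
        (-q^2)^(k + 1 + T.length) • Psi (0 :: (-q^2) :: (-q) :: l0) := by
      rw [Finsupp.mapDomain_smul, ← hexch]
    rw [h1, hf, bwdF_smul, hb, hinvL, h2, hrec, smul_smul,
      smul_smul, Finsupp.mapDomain_smul, hcap]
    congr 1
    have e3 : (-q)^(k + 1 + T.length) * (-q^2)^(k + 1 + T.length) = 1 := by
      rw [← mul_pow]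
      have : -q * -q^2 = 1 := by linear_combination h3
      rw [this, one_pow]
    rw [e3, one_mul]
  have hne : fac (-q^2) (0 :: l0) ≠ 0 := fac_ne_ones k T hT
  have h5 := congrArg (fun f => (fac (-q^2) (0 :: l0))⁻¹ • f) hmain
  simp only [smul_smul, inv_mul_cancel₀ hne, one_smul] at h5
  exact h5

/-- the vector of the strip of even width with wired left wall is stationary -/
theorem stat_wL (m : ℕ) : TF (2*m+2) (wL (2*m+2)) = wL (2*m+2) := by
  have h := stat (2*m+1) [] (Or.inl rfl) ⟨m+1, by simp; ring⟩ (by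
    have := Psi_invN (-q) (0 :: (-q^2) :: List.replicate (2*m+1) 1) (neg_ne_zero.mpr q_ne_zero)
      ⟨m+1, by simp; ring⟩
    rw [inv_negq] at this
    rw [this]
    congr 2
    simp)
  rw [List.append_nil] at h
  exact h

/-- the vector of the strip of odd width with both walls wired is stationary -/
theorem stat_wW (m : ℕ) : TF (2*m+3) (wW (2*m+3)) = wW (2*m+3) := by
  exact stat (2*m+2) [0] (Or.inr rfl) ⟨m+2, by simp; ring⟩ (by
    have := Psi_inv0 (-q) (0 :: (-q^2) :: List.replicate (2*m+2) 1) (neg_ne_zero.mpr q_ne_zero)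
      ⟨m+2, by simp; ring⟩
    rw [inv_negq] at this
    rw [this]
    congr 2
    simp)

end Pool.Agent.H29.TW
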